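import Mathlib

/-! Block E: universal property of completed residue fields (module TD_E_EXTI). -/

namespace Pool.Agent.TD

namespace Exti

section
variable {A H H' : Type} [CommRing A] [NormedField H] [NormedField H'] (ι : A →+* H)
  (κ : A →+* H')

/-- The ring of fractions inside `H`. -/
def fr : Subring H where
  carrier := {h | ∃ a b : A, ι b ≠ 0 ∧ h = ι a / ι b}
  one_mem' := ⟨1, 1, by rw [map_one]; exact one_ne_zero, by rw [map_one, div_one]⟩
  zero_mem' := ⟨0, 1, by rw [map_one]; exact one_ne_zero, by rw [map_zero, zero_div]⟩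
  add_mem' := by
    rintro x y ⟨a, b, hb, rfl⟩ ⟨c, d, hd, rfl⟩
    refine ⟨a * d + b * c, b * d, by rw [map_mul]; exact mul_ne_zero hb hd, ?_⟩
    rw [map_add, map_mul, map_mul, map_mul, div_add_div _ _ hb hd]
  mul_mem' := by
    rintro x y ⟨a, b, hb, rfl⟩ ⟨c, d, hd, rfl⟩
    refine ⟨a * c, b * d, by rw [map_mul]; exact mul_ne_zero hb hd, ?_⟩
    rw [map_mul, map_mul, div_mul_div_comm]
  neg_mem' := by
    rintro x ⟨a, b, hb, rfl⟩
    exact ⟨-a, b, hb, by rw [map_neg, neg_div]⟩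

lemma ne_iff (hn : ∀ a, ‖κ a‖ = ‖ι a‖) (a : A) : κ a ≠ 0 ↔ ι a ≠ 0 := by
  rw [← norm_ne_zero_iff, hn, norm_ne_zero_iff]

lemma wd (hn : ∀ a, ‖κ a‖ = ‖ι a‖) {a b c d : A} (hb : ι b ≠ 0) (hd : ι d ≠ 0)
    (h : ι a / ι b = ι c / ι d) : κ a / κ b = κ c / κ d := by
  have hb' : κ b ≠ 0 := (ne_iff ι κ hn b).2 hb
  have hd' : κ d ≠ 0 := (ne_iff ι κ hn d).2 hd
  rw [div_eq_div_iff hb hd] at h
  rw [div_eq_div_iff hb' hd']
  have h1 : ι (a * d - c * b) = 0 := by rw [map_sub, map_mul, map_mul, h, sub_self]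
  have h2 : κ (a * d - c * b) = 0 := by rw [← norm_eq_zero, hn, h1, norm_zero]
  rw [map_sub, map_mul, map_mul] at h2
  exact sub_eq_zero.1 h2

/-- The value of the extension on a fraction. -/
noncomputable def vl (s : fr ι) : H' :=
  κ s.2.choose / κ s.2.choose_spec.choose

lemma vl_eq (hn : ∀ a, ‖κ a‖ = ‖ι a‖) (s : fr ι) {a b : A} (hb : ι b ≠ 0)
    (h : (s : H) = ι a / ι b) : vl ι κ s = κ a / κ b := by
  have hs := s.2.choose_spec.choose_spec
  exact wd ι κ hn hs.1 hb (hs.2.symm.trans h)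

/-- The extension on the ring of fractions. -/
noncomputable def frHom (hn : ∀ a, ‖κ a‖ = ‖ι a‖) : fr ι →+* H' where
  toFun := vl ι κ
  map_one' := by
    rw [vl_eq ι κ hn 1 (a := 1) (b := 1) (by rw [map_one]; exact one_ne_zero)
      (by rw [map_one, div_one]; rfl), map_one, div_one]
  map_zero' := by
    rw [vl_eq ι κ hn 0 (a := 0) (b := 1) (by rw [map_one]; exact one_ne_zero)
      (by rw [map_zero, zero_div]; rfl), map_zero, zero_div]
  map_add' := by
    rintro ⟨x, a, b, hb, hx⟩ ⟨y, c, d, hd, hy⟩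
    have hb' : κ b ≠ 0 := (ne_iff ι κ hn b).2 hb
    have hd' : κ d ≠ 0 := (ne_iff ι κ hn d).2 hd
    rw [vl_eq ι κ hn ⟨x, a, b, hb, hx⟩ hb hx, vl_eq ι κ hn ⟨y, c, d, hd, hy⟩ hd hy,
      vl_eq ι κ hn (a := a * d + b * c) (b := b * d) _
        (by rw [map_mul]; exact mul_ne_zero hb hd)
        (by
          show x + y = _
          rw [hx, hy, map_add, map_mul, map_mul, map_mul, div_add_div _ _ hb hd]),
      map_add, map_mul, map_mul, map_mul, div_add_div _ _ hb' hd']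
  map_mul' := by
    rintro ⟨x, a, b, hb, hx⟩ ⟨y, c, d, hd, hy⟩
    rw [vl_eq ι κ hn ⟨x, a, b, hb, hx⟩ hb hx, vl_eq ι κ hn ⟨y, c, d, hd, hy⟩ hd hy,
      vl_eq ι κ hn (a := a * c) (b := b * d) _
        (by rw [map_mul]; exact mul_ne_zero hb hd)
        (by
          show x * y = _
          rw [hx, hy, map_mul, map_mul, div_mul_div_comm]),
      map_mul, map_mul, div_mul_div_comm]

lemma norm_frHom (hn : ∀ a, ‖κ a‖ = ‖ι a‖) (s : fr ι) : ‖frHom ι κ hn s‖ = ‖s‖ := by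
  obtain ⟨x, a, b, hb, hx⟩ := s
  show ‖vl ι κ ⟨x, a, b, hb, hx⟩‖ = ‖x‖
  rw [vl_eq ι κ hn ⟨x, a, b, hb, hx⟩ hb hx, norm_div, hn, hn, hx, norm_div]

end

end Exti

open Exti in
/-- An isometric homomorphism `κ : A → H'` into a complete field extends to `H`, if the fractions of
`ι : A → H` are dense in `H`. -/
theorem exists_ext_completion {A H H' : Type} [CommRing A] [NormedField H] [NormedField H']
    [CompleteSpace H'] (ι : A →+* H) (κ : A →+* H') (hn : ∀ a, ‖κ a‖ = ‖ι a‖)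
    (hd : ∀ (h : H) (ε : ℝ), 0 < ε → ∃ a b : A, ι b ≠ 0 ∧ ‖h - ι a / ι b‖ < ε) :
    ∃ τ : H →+* H', (∀ h, ‖τ h‖ = ‖h‖) ∧ ∀ a, τ (ι a) = κ a := by
  have ue : IsUniformInducing (fr ι).subtype := isometry_subtype_coe.isUniformInducing
  have dr : DenseRange (fr ι).subtype := by
    intro h
    rw [Metric.mem_closure_iff]
    intro ε hε
    obtain ⟨a, b, hb, hab⟩ := hd h ε hε
    exact ⟨ι a / ι b, ⟨⟨ι a / ι b, a, b, hb, rfl⟩, rfl⟩, by rw [dist_eq_norm]; exact hab⟩
  have hiso : Isometry (frHom ι κ hn) := AddMonoidHomClass.isometry_of_norm _ (norm_frHom ι κ hn)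
  have hf : UniformContinuous (frHom ι κ hn) := hiso.uniformContinuous
  let τ : H →+* H' := IsDenseInducing.extendRingHom ue dr hf
  have hτ : ∀ s : fr ι, τ (s : H) = frHom ι κ hn s := fun s =>
    IsDenseInducing.extend_eq (ue.isDenseInducing dr) hf.continuous s
  have hcont : Continuous τ := (uniformContinuous_uniformly_extend ue dr hf).continuous
  refine ⟨τ, fun h => ?_, fun a => ?_⟩
  · refine DenseRange.induction_on dr h (isClosed_eq hcont.norm continuous_norm) fun s => ?_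
    show ‖τ (s : H)‖ = ‖(s : H)‖
    rw [hτ s]
    exact norm_frHom ι κ hn s
  · have h1 : ι (1 : A) ≠ 0 := by rw [map_one]; exact one_ne_zero
    have h2 : ι a = ι a / ι 1 := by rw [map_one, div_one]
    have h3 := hτ ⟨ι a, a, 1, h1, h2⟩
    have h4 : frHom ι κ hn ⟨ι a, a, 1, h1, h2⟩ = κ a / κ 1 := vl_eq ι κ hn _ h1 h2
    have h5 : κ a / κ 1 = κ a := by rw [map_one, div_one]
    exact (h3.trans h4).trans h5

end Pool.Agent.TD
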