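import Pool.Agent.TD.E.Apx
import Pool.Agent.TD.E.Exti

/-! Block E: the fibre over `y` is `M(H[X])` (module TD_E_FIB). -/

open scoped Topology
open Polynomial

namespace Pool.Agent.TD

variable {K A H : Type} [NormedField K] [CommRing A] [Algebra K A] [NormedField H]
  {y : Ber K A} {ι : A →+* H}

namespace EFib

/-- The point of `M(H[X])` given by an isometric embedding `τ : H → H'` and `x ∈ H'`. -/
noncomputable def evPt {H' : Type} [NormedField H'] [IsUltrametricDist H'] (τ : H →+* H')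
    (hτ : ∀ h, ‖τ h‖ = ‖h‖) (x : H') : Ber H H[X] where
  v f := ‖eval₂ τ x f‖
  nonneg f := norm_nonneg _
  one := by rw [eval₂_one, norm_one]
  mul f g := by rw [eval₂_mul, norm_mul]
  add f g := by
    rw [eval₂_add]
    exact IsUltrametricDist.norm_add_le_max _ _
  ext c := by
    rw [Polynomial.algebraMap_apply, eval₂_C]
    exact hτ c

theorem evPt_v {H' : Type} [NormedField H'] [IsUltrametricDist H'] (τ : H →+* H')
    (hτ : ∀ h, ‖τ h‖ = ‖h‖) (x : H') (f : H[X]) : (evPt τ hτ x).v f = ‖eval₂ τ x f‖ := rfl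

theorem abs_sub_lt (w : Ber H H[X]) {f g : H[X]} {ε : ℝ} (h : w.v (f - g) < ε) :
    |w.v f - w.v g| < ε := by
  have h1 : w.v f ≤ max (w.v g) (w.v (f - g)) := by
    calc w.v f = w.v (g + (f - g)) := by rw [add_sub_cancel]
      _ ≤ _ := w.add _ _
  have h2 : w.v g ≤ max (w.v f) (w.v (f - g)) := by
    calc w.v g = w.v (f - (f - g)) := by rw [sub_sub_cancel]
      _ ≤ _ := w.sub _ _
  have h3 := w.nonneg f
  have h4 := w.nonneg g
  rw [abs_lt]
  constructor
  · rcases le_max_iff.1 h2 with h5 | h5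
    · have := w.nonneg (f - g)
      linarith
    · linarith
  · rcases le_max_iff.1 h1 with h5 | h5
    · have := w.nonneg (f - g)
      linarith
    · linarith

theorem v_quot (hι : IsRes y ι) (w : Ber H H[X]) (F : A[X]) (b : A) :
    w.v (C (ι b)⁻¹ * F.map ι) = ‖(ι b)⁻¹‖ * (jj hι w).v F := by
  rw [w.mul, jj_v]
  congr 1
  exact w.ext _

theorem tendsto_v (hι : IsRes y ι) (w₀ : Ber H H[X]) (f : H[X]) :
    Filter.Tendsto (fun w : Ber H H[X] => w.v f) (Filter.comap (jj hι) (𝓝 (jj hι w₀)))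
      (𝓝 (w₀.v f)) := by
  rw [Metric.tendsto_nhds]
  intro ε hε
  obtain ⟨F, b, hb, hF⟩ := exists_apx hι f (w₀.v X + 1) (ε / 3) (by positivity)
  have hX : Filter.Tendsto (fun w : Ber H H[X] => (jj hι w).v X)
      (Filter.comap (jj hι) (𝓝 (jj hι w₀))) (𝓝 ((jj hι w₀).v X)) :=
    ((Ber.continuous_v (K := K) (X : A[X])).tendsto (jj hι w₀)).comp Filter.tendsto_comap
  have hFt : Filter.Tendsto (fun w : Ber H H[X] => ‖(ι b)⁻¹‖ * (jj hι w).v F)
      (Filter.comap (jj hι) (𝓝 (jj hι w₀))) (𝓝 (‖(ι b)⁻¹‖ * (jj hι w₀).v F)) :=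
    (((Ber.continuous_v (K := K) F).tendsto (jj hι w₀)).comp Filter.tendsto_comap).const_mul _
  have hXX : ∀ w : Ber H H[X], (jj hι w).v X = w.v X := fun w => by
    rw [jj_v, Polynomial.map_X]
  have e1 : ∀ᶠ w in Filter.comap (jj hι) (𝓝 (jj hι w₀)), (jj hι w).v X < (jj hι w₀).v X + 1 :=
    hX.eventually (gt_mem_nhds (by linarith))
  have e2 : ∀ᶠ w in Filter.comap (jj hι) (𝓝 (jj hι w₀)),
      dist (‖(ι b)⁻¹‖ * (jj hι w).v F) (‖(ι b)⁻¹‖ * (jj hι w₀).v F) < ε / 3 :=
    (Metric.tendsto_nhds.1 hFt) (ε / 3) (by positivity)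
  filter_upwards [e1, e2] with w h1 h2
  rw [hXX, hXX] at h1
  rw [← v_quot hι, ← v_quot hι, Real.dist_eq] at h2
  have h3 := abs_sub_lt w (hF w h1.le)
  have h4 := abs_sub_lt w₀ (hF w₀ (by linarith))
  rw [Real.dist_eq]
  rw [abs_lt] at *
  constructor <;> linarith [h2.1, h2.2, h3.1, h3.2, h4.1, h4.2]

theorem isInducing_jj (hι : IsRes y ι) : Topology.IsInducing (jj hι) := by
  rw [Topology.isInducing_iff_nhds]
  intro w
  apply le_antisymm
  · exact (jj_continuous hι).tendsto w |>.le_comap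
  · have h1 : 𝓝 w = Filter.comap Ber.v (𝓝 w.v) := Ber.isEmbedding_v.isInducing.nhds_eq_comap w
    rw [h1, ← Filter.tendsto_iff_comap]
    exact tendsto_pi_nhds.2 fun f => tendsto_v hι w f

end EFib

/-- (E0) -/
theorem range_jj (hRes : StmtRes) (hι : IsRes y ι) :
    Set.range (jj hι) = {z : Ber K A[X] | ∀ a, z.v (C a) = y.v a} := by
  ext z
  constructor
  · rintro ⟨w, rfl⟩ a
    exact jj_C hι w a
  · intro hz
    obtain ⟨H', i1, i2, i3, ι', hι'⟩ := hRes K A[X] z
    obtain ⟨τ, hτ, hτ'⟩ := exists_ext_completion ι (ι'.comp C) (fun a => by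
      rw [RingHom.comp_apply, hι'.norm, hz a, hι.norm]) hι.dense
    refine ⟨EFib.evPt τ hτ (ι' X), ?_⟩
    apply Ber.ext_v
    intro F
    rw [jj_v, EFib.evPt_v, Polynomial.eval₂_map, ← hι'.norm]
    congr 1
    have h1 : τ.comp ι = ι'.comp C := RingHom.ext hτ'
    rw [h1]
    have h2 : ∀ G : A[X], eval₂ (ι'.comp C) (ι' X) G = ι' (eval₂ C X G) := fun G =>
      (Polynomial.hom_eval₂ G C ι' X).symm
    rw [h2, Polynomial.eval₂_C_X]

/-- (E0) -/
theorem isClosedEmbedding_jj (hRes : StmtRes) (hι : IsRes y ι) :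
    Topology.IsClosedEmbedding (jj hι) := by
  have h1 := EFib.isInducing_jj hι
  have h2 : Topology.IsEmbedding (jj hι) := h1.isEmbedding
  refine ⟨h2, ?_⟩
  rw [range_jj hRes hι]
  simp only [Set.ofPred_forall]
  exact isClosed_iInter fun a => isClosed_eq (Ber.continuous_v _) continuous_const

end Pool.Agent.TD
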