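import Pool.Agent.TD.E.Split
import Pool.Agent.TD.E.Fib
import Pool.Agent.TD.T.All

/-! Block E: everything, unconditional. -/

open scoped Topology
open Polynomial

namespace Pool.Agent.TD

variable {K A H : Type} [NormedField K] [CommRing A] [Algebra K A] [NormedField H]
  {y : Ber K A} {ι : A →+* H} {p : ℕ}

/-- The fibre over `y` is `M(H[X])`. -/
theorem fib_range (hι : IsRes y ι) :
    Set.range (jj hι) = {z : Ber K A[X] | ∀ a, z.v (C a) = y.v a} := range_jj stmtRes hι

theorem fib_isClosedEmbedding (hι : IsRes y ι) : Topology.IsClosedEmbedding (jj hι) :=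
  isClosedEmbedding_jj stmtRes hι

/-- (S) -/
theorem fib_split [IsUltrametricDist H] [CompleteSpace H] (hι : IsRes y ι) (e : Ber H H[X])
    {l : (berLS K A[X]).Stalk p 0 (jj hι e)} (hl : l ∈ (berLS K A[X]).Lp p (jj hι e)) :
    ∃ s₁ s₂ : SecT hι p, (∀ w : Ber H H[X], ¬ w < e → LC hι s₁ w) ∧
      (∀ w : Ber H H[X], w ≤ e → LC hι s₂ w) ∧ s₁ e + s₂ e = l :=
  exists_split stmtClp hι e hl

end Pool.Agent.TD
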