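import Pool.Agent.TD.E.Defs

/-! Block E: approximation of polynomials over `H` by quotients `F / b` (module TD_E_APX). -/

open scoped Topology
open Polynomial

namespace Pool.Agent.TD

variable {K A H : Type} [NormedField K] [CommRing A] [Algebra K A] [NormedField H]
  {y : Ber K A} {ι : A →+* H}

/-- (E1) -/
theorem exists_apx (hι : IsRes y ι) (f : H[X]) (R ε : ℝ) (hε : 0 < ε) :
    ∃ (F : A[X]) (b : A), ι b ≠ 0 ∧
      ∀ w : Ber H H[X], w.v X ≤ R → w.v (f - C (ι b)⁻¹ * F.map ι) < ε := by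
  classical
  set n := f.natDegree with hn
  set M : ℝ := (max 1 R) ^ n with hM
  have hM1 : (1 : ℝ) ≤ max 1 R := le_max_left _ _
  have hM0 : 0 < M := by positivity
  have hδ : 0 < ε / (2 * M) := by positivity
  choose a b hb hab using fun k : ℕ => hι.dense (f.coeff k) (ε / (2 * M)) hδ
  refine ⟨∑ k ∈ Finset.range (n + 1), C (a k * ∏ l ∈ (Finset.range (n + 1)).erase k, b l) * X ^ k,
    ∏ k ∈ Finset.range (n + 1), b k, ?_, ?_⟩
  · rw [map_prod]
    exact Finset.prod_ne_zero_iff.2 fun k _ => hb k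
  · intro w hw
    have key : f - C (ι (∏ k ∈ Finset.range (n + 1), b k))⁻¹ *
        (∑ k ∈ Finset.range (n + 1),
          C (a k * ∏ l ∈ (Finset.range (n + 1)).erase k, b l) * X ^ k).map ι =
        ∑ k ∈ Finset.range (n + 1), C (f.coeff k - ι (a k) / ι (b k)) * X ^ k := by
      rw [Polynomial.map_sum, Finset.mul_sum]
      conv_lhs => rw [f.as_sum_range_C_mul_X_pow]
      rw [← hn, ← Finset.sum_sub_distrib]
      refine Finset.sum_congr rfl fun k hk => ?_
      rw [Polynomial.map_mul, Polynomial.map_C, Polynomial.map_pow, Polynomial.map_X, ← mul_assoc,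
        ← C_mul, ← sub_mul, ← C_sub]
      congr 2
      congr 1
      rw [← Finset.mul_prod_erase _ _ hk, map_mul, map_mul]
      have h1 : ι (∏ l ∈ (Finset.range (n + 1)).erase k, b l) ≠ 0 := by
        rw [map_prod]
        exact Finset.prod_ne_zero_iff.2 fun k _ => hb k
      have h2 := hb k
      field_simp
    rw [key]
    refine lt_of_le_of_lt (w.sum_le _ _ (M := ε / 2) (by positivity) fun k hk => ?_) (half_lt_self hε)
    have hk' : k ≤ n := Nat.lt_succ_iff.1 (Finset.mem_range.1 hk)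
    rw [w.mul, w.pow]
    have h1 : w.v (C (f.coeff k - ι (a k) / ι (b k))) = ‖f.coeff k - ι (a k) / ι (b k)‖ := w.ext _
    have h2 : w.v X ^ k ≤ M := by
      calc w.v X ^ k ≤ (max 1 R) ^ k := pow_le_pow_left₀ (w.nonneg _) (hw.trans (le_max_right _ _)) k
        _ ≤ (max 1 R) ^ n := pow_le_pow_right₀ hM1 hk'
    rw [h1]
    calc ‖f.coeff k - ι (a k) / ι (b k)‖ * w.v X ^ k ≤ ε / (2 * M) * M :=
          mul_le_mul (hab k).le h2 (pow_nonneg (w.nonneg _) _) hδ.le
      _ = ε / 2 := by field_simp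

end Pool.Agent.TD
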