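import Pool.Agent.TD.A.St1
import Pool.Agent.TD.A.Dls
import Pool.Agent.TD.T.Stmts

/-!
# Block E: closed `(p,0)`-forms near the fibre of `M(A[X]) → M(A)` over `y` (MP_90358a_ag)

`y` is a point of `M(A)`, `(H, ι)` its completed residue field (`hι : IsRes y ι`).  The fibre over `y`
is `M(H[X])`, embedded in `M(A[X])` by `jj hι`.  A section over the fibre is a family
`s : SecT hι p` of germs; `LCat hι s D w` says that near `w`, on `D`, it is given by one constant raw
form which is defined at `w`.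
-/

open scoped ContDiff Topology
open Polynomial

namespace Pool.Agent.TD

section
variable {K A H : Type} [NormedField K] [CommRing A] [Algebra K A] [NormedField H]
  {y : Ber K A} {ι : A →+* H}

theorem norm_res_algebraMap (hι : IsRes y ι) (c : K) : ‖ι (algebraMap K A c)‖ = ‖c‖ := by
  rw [hι.norm, y.ext]

/-- The inclusion of the fibre `M(H[X]) → M(A[X])`. -/
noncomputable def jj (hι : IsRes y ι) (w : Ber H H[X]) : Ber K A[X] :=
  Ber.comap (Polynomial.mapRingHom ι) (fun w c => by
    have h1 : (Polynomial.mapRingHom ι) (algebraMap K A[X] c) =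
        algebraMap H H[X] (ι (algebraMap K A c)) := by
      rw [Polynomial.algebraMap_apply, Polynomial.coe_mapRingHom, Polynomial.map_C]
      rfl
    rw [h1, w.ext, norm_res_algebraMap hι]) w

theorem jj_v (hι : IsRes y ι) (w : Ber H H[X]) (f : A[X]) : (jj hι w).v f = w.v (f.map ι) := rfl

theorem jj_C (hι : IsRes y ι) (w : Ber H H[X]) (a : A) : (jj hι w).v (C a) = y.v a := by
  rw [jj_v, Polynomial.map_C]
  have h := w.ext (ι a)
  rw [← hι.norm]
  exact h

theorem jj_continuous (hι : IsRes y ι) : Continuous (jj hι) :=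
  Ber.continuous_iff.2 fun f => Ber.continuous_v (f.map ι)

/-- Families of germs of type `(p,0)` over the fibre. -/
abbrev SecT (hι : IsRes y ι) (p : ℕ) : Type :=
  ∀ w : Ber H H[X], (berLS K A[X]).Stalk p 0 (jj hι w)

/-- `s` is given on `D`, near `w`, by one constant raw form which is defined at `w`. -/
def LCat (hι : IsRes y ι) {p : ℕ} (s : SecT hι p) (D : Set (Ber H H[X])) (w : Ber H H[X]) : Prop :=
  ∃ θ : Raw A[X] p 0, IsCst θ ∧ (berLS K A[X]).SFat (jj hι w) θ ∧ ∀ᶠ w' in 𝓝 w, w' ∈ D →
    ∃ h : (berLS K A[X]).SFat (jj hι w') θ, s w' = (berLS K A[X]).germ θ h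

/-- `s` is locally constant near `w` (including `w`). -/
def LC (hι : IsRes y ι) {p : ℕ} (s : SecT hι p) (w : Ber H H[X]) : Prop :=
  LCat hι s Set.univ w

/-- `s` is regular at `w`: on a punctured neighbourhood it is equal to a constant form which is
defined at `w`. -/
def Reg (hι : IsRes y ι) {p : ℕ} (s : SecT hι p) (w : Ber H H[X]) : Prop :=
  LCat hι s {w}ᶜ w

/-- `x = dlog|F| - dlog|b|` for an approximation `F / b` of `f` with `|f - F / b| < |f|` at `w`. -/
def IsDl (hι : IsRes y ι) (f : H[X]) (w : Ber H H[X])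
    (x : (berLS K A[X]).Stalk 1 0 (jj hι w)) : Prop :=
  ∃ (F : A[X]) (b : A) (hF : jj hι w ∈ (berLS K A[X]).dom F)
    (hb : jj hι w ∈ (berLS K A[X]).dom (C b)),
    w.v (f - C (ι b)⁻¹ * F.map ι) < w.v f ∧
      x = (berLS K A[X]).dlS F hF - (berLS K A[X]).dlS (C b) hb

open Classical in
/-- The differential `dlog|f|` of `f ∈ H[X]`, as a family of germs (`0` where `f` vanishes). -/
noncomputable def dlH (hι : IsRes y ι) (f : H[X]) : SecT hι 1 := fun w =>
  if h : ∃ x, IsDl hι f w x then h.choose else 0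

/-- Exterior product with `dlog|f|`. -/
noncomputable def WH (hι : IsRes y ι) {p : ℕ} (f : H[X]) : SecT hι p →ₗ[ℝ] SecT hι (p + 1) where
  toFun s := fun w => (berLS K A[X]).wdS p 0 (jj hι w) (dlH hι f w) (s w)
  map_add' s t := by
    funext w
    exact map_add _ _ _
  map_smul' c s := by
    funext w
    exact ((berLS K A[X]).wdS p 0 (jj hι w) (dlH hι f w)).map_smul c (s w)

theorem WH_apply (hι : IsRes y ι) {p : ℕ} (f : H[X]) (s : SecT hι p) (w : Ber H H[X]) :
    WH hι f s w = (berLS K A[X]).wdS p 0 (jj hι w) (dlH hι f w) (s w) := rfl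

/-- Combinations of symbols `dlog|f_1| ∧ ... ∧ dlog|f_p|` with entries of degree `< d`. -/
noncomputable def Sy (hι : IsRes y ι) : (p d : ℕ) → Submodule ℝ (SecT hι p)
  | 0, _ => Submodule.span ℝ {fun w => (berLS K A[X]).oneS (jj hι w)}
  | p + 1, d => Submodule.span ℝ {s | ∃ (f : H[X]) (t : SecT hι p), f ≠ 0 ∧ f.natDegree < d ∧
      t ∈ Sy hι p d ∧ s = WH hι f t}

end

end Pool.Agent.TD
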