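import Pool.Agent.TD.E.Apx

/-! Block E: the differentials `dlog|f|`, `f ∈ H[X]` (module TD_E_DL). -/

open scoped Topology
open Polynomial

namespace Pool.Agent.TD

variable {K A H : Type} [NormedField K] [CommRing A] [Algebra K A] [NormedField H]
  {y : Ber K A} {ι : A →+* H}

namespace EDl

/-- `F / b` approximates `f` at `w`. -/
def Ap (ι : A →+* H) (f : H[X]) (w : Ber H H[X]) (F : A[X]) (b : A) : Prop :=
  ι b ≠ 0 ∧ w.v (f - C (ι b)⁻¹ * F.map ι) < w.v f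

theorem v_C (w : Ber H H[X]) (c : H) : w.v (C c) = ‖c‖ := w.ext c

theorem Ap.pos {f : H[X]} {w : Ber H H[X]} {F : A[X]} {b : A} (h : Ap ι f w F b) :
    0 < w.v f := (w.nonneg _).trans_lt h.2

theorem Ap.v_eq {f : H[X]} {w : Ber H H[X]} {F : A[X]} {b : A} (h : Ap ι f w F b) :
    w.v (C (ι b)⁻¹ * F.map ι) = w.v f := w.sub_eq h.2

theorem Ap.domC (hι : IsRes y ι) {f : H[X]} {w : Ber H H[X]} {F : A[X]} {b : A}
    (h : Ap ι f w F b) : jj hι w ∈ (berLS K A[X]).dom (C b) := by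
  show (jj hι w).v (C b) ≠ 0
  rw [jj_C, ← hι.norm]
  simpa using h.1

theorem Ap.domF (hι : IsRes y ι) {f : H[X]} {w : Ber H H[X]} {F : A[X]} {b : A}
    (h : Ap ι f w F b) : jj hι w ∈ (berLS K A[X]).dom F := by
  show (jj hι w).v F ≠ 0
  rw [jj_v]
  intro h0
  have h1 := h.v_eq
  rw [w.mul, h0, mul_zero] at h1
  exact h.pos.ne h1

theorem ne_of_dom (hι : IsRes y ι) {w : Ber H H[X]} {b : A}
    (hb : jj hι w ∈ (berLS K A[X]).dom (C b)) : ι b ≠ 0 := by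
  intro h0
  apply hb
  rw [jj_C, ← hι.norm, h0, norm_zero]

/-- Two fractions which are close have the same differential. -/
theorem dl_eq {z : Ber K A[X]} {F F' : A[X]} {b b' : A}
    (hF : z ∈ (berLS K A[X]).dom F) (hb : z ∈ (berLS K A[X]).dom (C b))
    (hF' : z ∈ (berLS K A[X]).dom F') (hb' : z ∈ (berLS K A[X]).dom (C b'))
    (h : z.v (F * C b' - F' * C b) < z.v (F * C b')) :
    (berLS K A[X]).dlS F hF - (berLS K A[X]).dlS (C b) hb =
      (berLS K A[X]).dlS F' hF' - (berLS K A[X]).dlS (C b') hb' := by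
  let g : Fin 3 → A[X] := ![F', C b, C b']
  have hg : ∀ i, z ∈ (berLS K A[X]).dom (g i) := by
    intro i
    fin_cases i
    exacts [hF', hb, hb']
  have hev : ∀ᶠ z' in 𝓝 z, (berLS K A[X]).lf F z' =
      0 + ∑ i, (![1, 1, -1] : Fin 3 → ℝ) i * (berLS K A[X]).lf (g i) z' := by
    have h1 : ∀ᶠ z' : Ber K A[X] in 𝓝 z, z'.v (F * C b' - F' * C b) < z'.v (F * C b') :=
      (Ber.continuous_v _).continuousAt.eventually_lt (Ber.continuous_v _).continuousAt h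
    have h2 : ∀ᶠ z' : Ber K A[X] in 𝓝 z, z' ∈ (berLS K A[X]).dom F :=
      ((berLS K A[X]).isOpen_dom F).mem_nhds hF
    have h3 : ∀ᶠ z' : Ber K A[X] in 𝓝 z, z' ∈ (berLS K A[X]).dom (C b) :=
      ((berLS K A[X]).isOpen_dom (C b)).mem_nhds hb
    have h4 : ∀ᶠ z' : Ber K A[X] in 𝓝 z, z' ∈ (berLS K A[X]).dom F' :=
      ((berLS K A[X]).isOpen_dom F').mem_nhds hF'
    have h5 : ∀ᶠ z' : Ber K A[X] in 𝓝 z, z' ∈ (berLS K A[X]).dom (C b') :=
      ((berLS K A[X]).isOpen_dom (C b')).mem_nhds hb'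
    filter_upwards [h1, h2, h3, h4, h5] with z' k1 k2 k3 k4 k5
    have e := z'.sub_eq k1
    rw [z'.mul, z'.mul] at e
    have e2 := congrArg Real.log e
    rw [Real.log_mul k4 k3, Real.log_mul k2 k5] at e2
    have e3 : Real.log (z'.v F) = 0 + (1 * Real.log (z'.v F') + (1 * Real.log (z'.v (C b)) +
        -1 * Real.log (z'.v (C b')))) := by linarith
    rw [Fin.sum_univ_three]
    show Real.log (z'.v F) = 0 + (1 * Real.log (z'.v F') + 1 * Real.log (z'.v (C b)) +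
        -1 * Real.log (z'.v (C b')))
    rw [e3]; ring
  have key := (berLS K A[X]).dlS_eq_sum hF hg _ _ hev
  rw [Fin.sum_univ_three] at key
  have key2 : (berLS K A[X]).dlS F hF = (1 : ℝ) • (berLS K A[X]).dlS F' hF' +
      (1 : ℝ) • (berLS K A[X]).dlS (C b) hb + (-1 : ℝ) • (berLS K A[X]).dlS (C b') hb' := key
  rw [key2, one_smul, one_smul, neg_one_smul]
  abel

/-- Approximations of close functions have the same differential. -/
theorem Ap.dl_eq (hι : IsRes y ι) {f g : H[X]} {w : Ber H H[X]} {F F' : A[X]} {b b' : A}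
    (h : Ap ι f w F b) (h' : Ap ι g w F' b') (hfg : w.v (f - g) < w.v f) :
    (berLS K A[X]).dlS F (h.domF hι) - (berLS K A[X]).dlS (C b) (h.domC hι) =
      (berLS K A[X]).dlS F' (h'.domF hι) - (berLS K A[X]).dlS (C b') (h'.domC hι) := by
  apply EDl.dl_eq
  have hgf : w.v g = w.v f := w.sub_eq hfg
  have hb : ι b ≠ 0 := h.1
  have hb' : ι b' ≠ 0 := h'.1
  have h1 : w.v (C (ι b)⁻¹ * F.map ι - C (ι b')⁻¹ * F'.map ι) < w.v f := by
    have e : C (ι b)⁻¹ * F.map ι - C (ι b')⁻¹ * F'.map ι =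
        (g - C (ι b')⁻¹ * F'.map ι) - ((f - C (ι b)⁻¹ * F.map ι) - (f - g)) := by ring
    rw [e]
    refine (w.sub _ _).trans_lt (max_lt (hgf ▸ h'.2) ?_)
    exact (w.sub _ _).trans_lt (max_lt h.2 hfg)
  rw [← h.v_eq] at h1
  have hc : 0 < w.v (C (ι b * ι b')) := by
    rw [v_C]
    exact norm_pos_iff.2 (mul_ne_zero hb hb')
  have h2 := mul_lt_mul_of_pos_left h1 hc
  rw [← w.mul, ← w.mul] at h2
  rw [jj_v, jj_v]
  have e1 : (C b : A[X]).map ι = C (ι b) := Polynomial.map_C ι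
  have e1' : (C b' : A[X]).map ι = C (ι b') := Polynomial.map_C ι
  have e2 : (F * C b' - F' * C b).map ι = C (ι b * ι b') *
      (C (ι b)⁻¹ * F.map ι - C (ι b')⁻¹ * F'.map ι) := by
    rw [Polynomial.map_sub, Polynomial.map_mul, Polynomial.map_mul, e1, e1']
    have e3 : C (ι b * ι b') * C (ι b)⁻¹ = C (ι b') := by
      rw [← C_mul]; congr 1; field_simp
    have e4 : C (ι b * ι b') * C (ι b')⁻¹ = C (ι b) := by
      rw [← C_mul]; congr 1; field_simp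
    rw [mul_sub, ← mul_assoc, ← mul_assoc, e3, e4]
    ring
  have e5 : (F * C b').map ι = C (ι b * ι b') * (C (ι b)⁻¹ * F.map ι) := by
    rw [Polynomial.map_mul, e1']
    have e3 : C (ι b * ι b') * C (ι b)⁻¹ = C (ι b') := by
      rw [← C_mul]; congr 1; field_simp
    rw [← mul_assoc, e3]
    ring
  rw [e2, e5]
  exact h2

theorem Ap.isDl (hι : IsRes y ι) {f : H[X]} {w : Ber H H[X]} {F : A[X]} {b : A}
    (h : Ap ι f w F b) : IsDl hι f w
      ((berLS K A[X]).dlS F (h.domF hι) - (berLS K A[X]).dlS (C b) (h.domC hι)) :=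
  ⟨F, b, h.domF hι, h.domC hι, h.2, rfl⟩

theorem exists_ap (hι : IsRes y ι) {f : H[X]} {w : Ber H H[X]} (hf : w.v f ≠ 0) :
    ∃ F b, Ap ι f w F b := by
  obtain ⟨F, b, hb, h⟩ := exists_apx hι f (w.v X) (w.v f) (lt_of_le_of_ne (w.nonneg f) hf.symm)
  exact ⟨F, b, hb, h w le_rfl⟩

theorem IsDl.exists_ap (hι : IsRes y ι) {f : H[X]} {w : Ber H H[X]}
    {x : (berLS K A[X]).Stalk 1 0 (jj hι w)} (h : IsDl hι f w x) :
    ∃ (F : A[X]) (b : A) (k : Ap ι f w F b),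
      x = (berLS K A[X]).dlS F (k.domF hι) - (berLS K A[X]).dlS (C b) (k.domC hι) := by
  obtain ⟨F, b, hF, hb, h1, h2⟩ := h
  exact ⟨F, b, ⟨ne_of_dom hι hb, h1⟩, h2⟩

theorem dlS_mul {z : Ber K A[X]} {F G : A[X]} (hF : z ∈ (berLS K A[X]).dom F)
    (hG : z ∈ (berLS K A[X]).dom G) (h : z ∈ (berLS K A[X]).dom (F * G)) :
    (berLS K A[X]).dlS (F * G) h = (berLS K A[X]).dlS F hF + (berLS K A[X]).dlS G hG := by
  let g : Fin 2 → A[X] := ![F, G]
  have hg : ∀ i, z ∈ (berLS K A[X]).dom (g i) := by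
    intro i
    fin_cases i
    exacts [hF, hG]
  have hev : ∀ᶠ z' in 𝓝 z, (berLS K A[X]).lf (F * G) z' =
      0 + ∑ i, (![1, 1] : Fin 2 → ℝ) i * (berLS K A[X]).lf (g i) z' := by
    have h2 : ∀ᶠ z' : Ber K A[X] in 𝓝 z, z' ∈ (berLS K A[X]).dom F :=
      ((berLS K A[X]).isOpen_dom F).mem_nhds hF
    have h3 : ∀ᶠ z' : Ber K A[X] in 𝓝 z, z' ∈ (berLS K A[X]).dom G :=
      ((berLS K A[X]).isOpen_dom G).mem_nhds hG
    filter_upwards [h2, h3] with z' k2 k3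
    rw [Fin.sum_univ_two]
    show Real.log (z'.v (F * G)) = 0 + (1 * Real.log (z'.v F) + 1 * Real.log (z'.v G))
    rw [z'.mul, Real.log_mul k2 k3]; ring
  have key := (berLS K A[X]).dlS_eq_sum h hg _ _ hev
  rw [Fin.sum_univ_two] at key
  have key2 : (berLS K A[X]).dlS (F * G) h = (1 : ℝ) • (berLS K A[X]).dlS F hF +
      (1 : ℝ) • (berLS K A[X]).dlS G hG := key
  rw [key2, one_smul, one_smul]

theorem dlS_one {z : Ber K A[X]} (h : z ∈ (berLS K A[X]).dom (C 1)) :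
    (berLS K A[X]).dlS (C 1) h = 0 := by
  have hev : ∀ᶠ z' in 𝓝 z, (berLS K A[X]).lf (C 1) z' =
      0 + ∑ i, (![] : Fin 0 → ℝ) i * (berLS K A[X]).lf ((![] : Fin 0 → A[X]) i) z' := by
    refine Filter.Eventually.of_forall fun z' => ?_
    show Real.log (z'.v (C 1)) = _
    rw [C_1, z'.one, Real.log_one]
    simp
  have key := (berLS K A[X]).dlS_eq_sum h (g := (![] : Fin 0 → A[X])) (fun i => i.elim0) _ _ hev
  simpa using key

theorem Ap.mul {f g : H[X]} {w : Ber H H[X]} {F G : A[X]} {b c : A} (h : Ap ι f w F b)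
    (k : Ap ι g w G c) : Ap ι (f * g) w (F * G) (b * c) := by
  refine ⟨by rw [map_mul]; exact mul_ne_zero h.1 k.1, ?_⟩
  have e : f * g - C (ι (b * c))⁻¹ * (F * G).map ι =
      f * (g - C (ι c)⁻¹ * G.map ι) + (f - C (ι b)⁻¹ * F.map ι) * (C (ι c)⁻¹ * G.map ι) := by
    rw [map_mul, mul_inv, C_mul, Polynomial.map_mul]
    ring
  rw [e]
  refine (w.add _ _).trans_lt (max_lt ?_ ?_)
  · rw [w.mul, w.mul]
    exact mul_lt_mul_of_pos_left k.2 h.pos
  · rw [w.mul, w.mul f g, k.v_eq]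
    exact mul_lt_mul_of_pos_right h.2 k.pos

end EDl

open EDl

theorem exists_isDl (hι : IsRes y ι) {f : H[X]} {w : Ber H H[X]} (hf : w.v f ≠ 0) :
    ∃ x, IsDl hι f w x := by
  obtain ⟨F, b, h⟩ := EDl.exists_ap hι hf
  exact ⟨_, h.isDl hι⟩

theorem IsDl.unique (hι : IsRes y ι) {f : H[X]} {w : Ber H H[X]}
    {x x' : (berLS K A[X]).Stalk 1 0 (jj hι w)} (h : IsDl hι f w x) (h' : IsDl hι f w x') :
    x = x' := by
  obtain ⟨F, b, k, rfl⟩ := EDl.IsDl.exists_ap hι h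
  obtain ⟨F', b', k', rfl⟩ := EDl.IsDl.exists_ap hι h'
  refine EDl.Ap.dl_eq hι k k' ?_
  rw [sub_self, w.zero]
  exact k.pos

theorem isDl_dlH (hι : IsRes y ι) {f : H[X]} {w : Ber H H[X]} (hf : w.v f ≠ 0) :
    IsDl hι f w (dlH hι f w) := by
  unfold dlH
  rw [dif_pos (exists_isDl hι hf)]
  exact (exists_isDl hι hf).choose_spec

theorem EDl.Ap.dlH_eq (hι : IsRes y ι) {f : H[X]} {w : Ber H H[X]} {F : A[X]} {b : A}
    (h : EDl.Ap ι f w F b) : dlH hι f w =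
      (berLS K A[X]).dlS F (h.domF hι) - (berLS K A[X]).dlS (C b) (h.domC hι) :=
  IsDl.unique hι (isDl_dlH hι h.pos.ne') (h.isDl hι)

theorem dlH_of_eq_zero (hι : IsRes y ι) {f : H[X]} {w : Ber H H[X]} (hf : w.v f = 0) :
    dlH hι f w = 0 := by
  unfold dlH
  rw [dif_neg]
  rintro ⟨x, hx⟩
  obtain ⟨F, b, k, -⟩ := EDl.IsDl.exists_ap hι hx
  exact k.pos.ne' hf

theorem dlH_mem_L1 (hι : IsRes y ι) (f : H[X]) (w : Ber H H[X]) :
    dlH hι f w ∈ (berLS K A[X]).L1 (jj hι w) := by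
  by_cases hf : w.v f = 0
  · rw [dlH_of_eq_zero hι hf]
    exact Submodule.zero_mem _
  · obtain ⟨F, b, h⟩ := EDl.exists_ap hι hf
    rw [h.dlH_eq hι]
    exact Submodule.sub_mem _ (Submodule.subset_span ⟨F, _, rfl⟩)
      (Submodule.subset_span ⟨C b, _, rfl⟩)

theorem dlH_congr (hι : IsRes y ι) {f g : H[X]} {w : Ber H H[X]} (h : w.v (f - g) < w.v f) :
    dlH hι f w = dlH hι g w := by
  have hf : w.v f ≠ 0 := ((w.nonneg _).trans_lt h).ne'
  have hg : w.v g ≠ 0 := by rw [w.sub_eq h]; exact hf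
  obtain ⟨F, b, k⟩ := EDl.exists_ap hι hf
  obtain ⟨F', b', k'⟩ := EDl.exists_ap hι hg
  rw [k.dlH_eq hι, k'.dlH_eq hι]
  exact EDl.Ap.dl_eq hι k k' h

theorem dlH_mul (hι : IsRes y ι) {f g : H[X]} {w : Ber H H[X]} (hf : w.v f ≠ 0)
    (hg : w.v g ≠ 0) : dlH hι (f * g) w = dlH hι f w + dlH hι g w := by
  obtain ⟨F, b, k⟩ := EDl.exists_ap hι hf
  obtain ⟨G, c, k'⟩ := EDl.exists_ap hι hg
  rw [k.dlH_eq hι, k'.dlH_eq hι, (k.mul k').dlH_eq hι]
  have e1 := EDl.dlS_mul (k.domF hι) (k'.domF hι) ((k.mul k').domF hι)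
  have hbc : jj hι w ∈ (berLS K A[X]).dom (C b * C c) := by
    have h := (k.mul k').domC hι
    rwa [C_mul] at h
  have e2 := EDl.dlS_mul (k.domC hι) (k'.domC hι) hbc
  have e3 : (berLS K A[X]).dlS (C (b * c)) ((k.mul k').domC hι) =
      (berLS K A[X]).dlS (C b * C c) hbc := by
    congr 1
    exact C_mul
  rw [e1, e3, e2]
  abel

theorem dlH_pow_mul (hι : IsRes y ι) {f g : H[X]} {w : Ber H H[X]} (hf : w.v f ≠ 0)
    (hg : w.v g ≠ 0) (k : ℕ) :
    dlH hι (f ^ k * g) w = (k : ℝ) • dlH hι f w + dlH hι g w := by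
  induction k with
  | zero => rw [pow_zero, one_mul, Nat.cast_zero, zero_smul, zero_add]
  | succ k ih =>
    have h : w.v (f ^ k * g) ≠ 0 := by
      rw [w.mul, w.pow]
      exact mul_ne_zero (pow_ne_zero k hf) hg
    have e : f ^ (k + 1) * g = f * (f ^ k * g) := by ring
    rw [e, dlH_mul hι hf h, ih, Nat.cast_succ, add_smul, one_smul]
    abel

theorem dlH_map (hι : IsRes y ι) {F : A[X]} {w : Ber H H[X]}
    (hF : jj hι w ∈ (berLS K A[X]).dom F) :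
    dlH hι (F.map ι) w = (berLS K A[X]).dlS F hF := by
  have hk : EDl.Ap ι (F.map ι) w F 1 := by
    refine ⟨by rw [map_one]; exact one_ne_zero, ?_⟩
    rw [map_one, inv_one, C_1, one_mul, sub_self, w.zero]
    exact lt_of_le_of_ne (w.nonneg _) (Ne.symm hF)
  rw [hk.dlH_eq hι, EDl.dlS_one, sub_zero]

theorem dlH_LC (hι : IsRes y ι) {f : H[X]} {w : Ber H H[X]} (hf : w.v f ≠ 0) :
    LC hι (dlH hι f) w := by
  obtain ⟨F, b, k⟩ := EDl.exists_ap hι hf
  have hs : ∀ {w' : Ber H H[X]} (k' : EDl.Ap ι f w' F b),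
      (berLS K A[X]).SFat (jj hι w') (dlg F - dlg (C b)) := fun {w'} k' =>
    LogSpace.SFat.sub (⟨{F}, isSF_dlg (Finset.mem_singleton_self F), by
        simpa using k'.domF hι⟩)
      (⟨{C b}, isSF_dlg (Finset.mem_singleton_self (C b)), by simpa using k'.domC hι⟩)
  refine ⟨dlg F - dlg (C b), fun _ _ _ _ => rfl, hs k, ?_⟩
  have h1 : ∀ᶠ w' : Ber H H[X] in 𝓝 w, w'.v (f - C (ι b)⁻¹ * F.map ι) < w'.v f :=
    (Ber.continuous_v _).continuousAt.eventually_lt (Ber.continuous_v _).continuousAt k.2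
  filter_upwards [h1] with w' hw' _
  have k' : EDl.Ap ι f w' F b := ⟨k.1, hw'⟩
  refine ⟨hs k', ?_⟩
  rw [k'.dlH_eq hι]
  exact (LogSpace.germ_sub _ _ _).symm

end Pool.Agent.TD
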