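import Pool.Agent.TD.E.Sym

/-! Block E: continuation of a combination of symbols to its regular points (module TD_E_EXR). -/

open scoped Topology
open Polynomial

namespace Pool.Agent.TD

variable {K A H : Type} [NormedField K] [CommRing A] [Algebra K A] [NormedField H]
  [IsUltrametricDist H] [CompleteSpace H] {y : Ber K A} {ι : A →+* H} {p d : ℕ}

namespace EXR

open Classical in
/-- the continuation -/
noncomputable def cont (hι : IsRes y ι) (s : SecT hι p) : SecT hι p := fun w =>
  if LC hι s w then s w
  else if h : Reg hι s w then ((reg_iff hι).1 h).choose w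
  else 0

/-- near every point, outside this point, no element of a finite set of irreducible polynomials
vanishes -/
theorem punctured (hClp : StmtClp) (B : Finset H[X]) (hB : ∀ P ∈ B, Irreducible P)
    (w : Ber H H[X]) : ∀ᶠ w' in 𝓝[≠] w, ∀ P ∈ B, w'.v P ≠ 0 := by
  have h : ∀ P ∈ B, ∀ᶠ w' in 𝓝[≠] w, w'.v P ≠ 0 := by
    intro P hP
    by_cases hw : w.v P = 0
    · obtain ⟨c, -, hc, -⟩ := hClp H P (hB P hP)
      filter_upwards [self_mem_nhdsWithin] with w' hw' h0
      exact hw' ((hc w' h0).trans (hc w hw).symm)
    · have hcont : Continuous (fun w' : Ber H H[X] => w'.v P) := Ber.continuous_v P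
      exact (hcont.continuousAt.eventually_ne hw).filter_mono nhdsWithin_le_nhds
  exact (Filter.eventually_all_finset B).2 h

end EXR

theorem exists_regular (hClp : StmtClp) (hι : IsRes y ι) {s : SecT hι p} (hs : s ∈ Sy hι p d) :
    ∃ t : SecT hι p, (∀ w : Ber H H[X], (∀ Q : H[X], Irreducible Q → w.v Q ≠ 0) → t w = s w) ∧
      ∀ w, Reg hι s w → LC hι t w := by
  obtain ⟨B, hB, hBs⟩ := Sy_bad hι hs
  have hLC : ∀ w, LC hι s w → EXR.cont hι s w = s w := fun w h => if_pos h
  refine ⟨EXR.cont hι s, fun w hw => ?_, fun w hw => ?_⟩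
  · exact hLC w (hBs w fun P hP => hw P (hB P hP).2.1)
  · by_cases h : LC hι s w
    · refine LCat.congr hι h ?_
      filter_upwards [LC.nhds hι h] with w' hw' _
      exact (hLC w' hw').symm
    · have hu := ((reg_iff hι).1 hw).choose_spec
      refine LCat.congr hι hu.1 ?_
      have h1 : ∀ᶠ w' in 𝓝[≠] w, ((reg_iff hι).1 hw).choose w' = EXR.cont hι s w' := by
        filter_upwards [hu.2, EXR.punctured hClp B (fun P hP => (hB P hP).2.1) w] with w' e1 e2
        rw [hLC w' (hBs w' e2), e1]
      have h2 : ((reg_iff hι).1 hw).choose w = EXR.cont hι s w := by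
        unfold EXR.cont
        rw [if_neg h, dif_pos hw]
      rw [eventually_nhdsWithin_iff] at h1
      filter_upwards [h1] with w' h3 _
      by_cases e : w' = w
      · subst e
        exact h2
      · exact h3 e

end Pool.Agent.TD
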