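import Pool.Agent.TD.E.Defs

/-! Block E: calculus of locally constant sections (module TD_E_LC). -/

open scoped Topology
open Polynomial

namespace Pool.Agent.TD

variable {K A H : Type} [NormedField K] [CommRing A] [Algebra K A] [NormedField H]
  {y : Ber K A} {ι : A →+* H} {p : ℕ}

theorem LCat.mono (hι : IsRes y ι) {s : SecT hι p} {D D' : Set (Ber H H[X])} {w : Ber H H[X]}
    (h : LCat hι s D w) (hD : D' ⊆ D) : LCat hι s D' w := by
  obtain ⟨θ, hc, hs, he⟩ := h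
  exact ⟨θ, hc, hs, he.mono fun w' h' hw' => h' (hD hw')⟩

theorem LCat.congr (hι : IsRes y ι) {s t : SecT hι p} {D : Set (Ber H H[X])} {w : Ber H H[X]}
    (h : LCat hι s D w) (he : ∀ᶠ w' in 𝓝 w, w' ∈ D → s w' = t w') : LCat hι t D w := by
  obtain ⟨θ, hc, hs, h1⟩ := h
  refine ⟨θ, hc, hs, (h1.and he).mono ?_⟩
  rintro w' ⟨h2, h3⟩ hw'
  obtain ⟨k, hk⟩ := h2 hw'
  exact ⟨k, by rw [← h3 hw', hk]⟩

theorem LCat.zero (hι : IsRes y ι) (D : Set (Ber H H[X])) (w : Ber H H[X]) :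
    LCat hι (0 : SecT hι p) D w := by
  refine ⟨0, isCst_zero, LogSpace.SFat.zero _, Filter.Eventually.of_forall fun w' _ => ?_⟩
  exact ⟨LogSpace.SFat.zero _, ((berLS K A[X]).germ_zero (z := jj hι w')).symm⟩

theorem LCat.add (hι : IsRes y ι) {s t : SecT hι p} {D : Set (Ber H H[X])} {w : Ber H H[X]}
    (h : LCat hι s D w) (k : LCat hι t D w) : LCat hι (s + t) D w := by
  obtain ⟨θ, hc, hs, he⟩ := h
  obtain ⟨η, kc, ks, ke⟩ := k
  refine ⟨θ + η, hc.add kc, hs.add ks, (he.and ke).mono ?_⟩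
  rintro w' ⟨h1, h2⟩ hw'
  obtain ⟨a1, e1⟩ := h1 hw'
  obtain ⟨a2, e2⟩ := h2 hw'
  refine ⟨a1.add a2, ?_⟩
  show s w' + t w' = _
  rw [e1, e2, LogSpace.germ_add]

theorem LCat.smul (hι : IsRes y ι) {s : SecT hι p} {D : Set (Ber H H[X])} {w : Ber H H[X]}
    (c : ℝ) (h : LCat hι s D w) : LCat hι (c • s) D w := by
  obtain ⟨θ, hc, hs, he⟩ := h
  refine ⟨c • θ, hc.smul c, hs.smul c, he.mono ?_⟩
  intro w' h1 hw'
  obtain ⟨a1, e1⟩ := h1 hw'
  refine ⟨a1.smul c, ?_⟩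
  show c • s w' = _
  rw [e1, LogSpace.germ_smul]

theorem LCat.neg (hι : IsRes y ι) {s : SecT hι p} {D : Set (Ber H H[X])} {w : Ber H H[X]}
    (h : LCat hι s D w) : LCat hι (-s) D w := by
  have h1 := LCat.smul hι (-1) h
  have e : (-1 : ℝ) • s = -s := neg_one_smul ℝ s
  rwa [e] at h1

theorem LCat.sub (hι : IsRes y ι) {s t : SecT hι p} {D : Set (Ber H H[X])} {w : Ber H H[X]}
    (h : LCat hι s D w) (k : LCat hι t D w) : LCat hι (s - t) D w := by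
  have h1 := LCat.add hι h (LCat.neg hι k)
  rwa [← sub_eq_add_neg] at h1

/-- exterior product with a locally constant `1`-form -/
theorem LCat.WH (hι : IsRes y ι) {s : SecT hι p} {D : Set (Ber H H[X])} {w : Ber H H[X]}
    {f : H[X]} (hf : LC hι (dlH hι f) w) (h : LCat hι s D w) : LCat hι (WH hι f s) D w := by
  obtain ⟨η, kc, ks, ke⟩ := hf
  obtain ⟨θ, hc, hs, he⟩ := h
  refine ⟨wdg1 η θ, kc.wdg1 hc, LogSpace.SFat.wdg1 _ ks hs, (ke.and he).mono ?_⟩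
  rintro w' ⟨h1, h2⟩ hw'
  obtain ⟨a1, e1⟩ := h1 (Set.mem_univ _)
  obtain ⟨a2, e2⟩ := h2 hw'
  refine ⟨LogSpace.SFat.wdg1 _ a1 a2, ?_⟩
  rw [WH_apply, e1, e2, LogSpace.wdS_germ]

theorem LC.oneS (hι : IsRes y ι) (w : Ber H H[X]) :
    LC hι (fun w => (berLS K A[X]).oneS (jj hι w)) w := by
  refine ⟨one0, isCst_one0, ⟨∅, isSF_one0 ∅, by simp⟩, Filter.Eventually.of_forall fun w' _ => ?_⟩
  exact ⟨⟨∅, isSF_one0 ∅, by simp⟩, rfl⟩

theorem LC.reg (hι : IsRes y ι) {s : SecT hι p} {w : Ber H H[X]} (h : LC hι s w) :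
    Reg hι s w :=
  LCat.mono hι h (Set.subset_univ _)

/-- local constancy is an open condition -/
theorem LC.nhds (hι : IsRes y ι) {s : SecT hι p} {w : Ber H H[X]} (h : LC hι s w) :
    ∀ᶠ w' in 𝓝 w, LC hι s w' := by
  obtain ⟨θ, hc, hs, he⟩ := h
  refine (eventually_eventually_nhds.2 he).mono fun w' he' => ?_
  obtain ⟨k, -⟩ := he'.self_of_nhds (Set.mem_univ _)
  exact ⟨θ, hc, k, he'⟩

theorem LC.mem_Lp (hι : IsRes y ι) {s : SecT hι p} {w : Ber H H[X]} (h : LC hι s w) :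
    s w ∈ (berLS K A[X]).Lp p (jj hι w) := by
  obtain ⟨θ, hc, hs, he⟩ := h
  obtain ⟨k, hk⟩ := he.self_of_nhds (Set.mem_univ _)
  rw [hk]
  exact (berLS K A[X]).germ_cst_mem hc k

theorem LC.closed (hι : IsRes y ι) {s : SecT hι p} {w : Ber H H[X]} (h : LC hι s w) :
    (berLS K A[X]).ddS p 0 (jj hι w) (s w) = 0 :=
  (berLS K A[X]).Lp_closed (LC.mem_Lp hι h)

/-- two locally constant sections with the same germ at `w` agree near `w` -/
theorem LC.eq_near (hι : IsRes y ι) {s t : SecT hι p} {w : Ber H H[X]} (h : LC hι s w)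
    (k : LC hι t w) (e : s w = t w) : ∀ᶠ w' in 𝓝 w, s w' = t w' := by
  obtain ⟨θ, hc, hs, he⟩ := h
  obtain ⟨η, kc, ks, ke⟩ := k
  obtain ⟨a1, e1⟩ := he.self_of_nhds (Set.mem_univ _)
  obtain ⟨a2, e2⟩ := ke.self_of_nhds (Set.mem_univ _)
  rw [e1, e2, LogSpace.germ_eq_iff] at e
  have hv : ∀ᶠ w' in 𝓝 w, (berLS K A[X]).Van (jj hι w') (θ - η) :=
    (jj_continuous hι).continuousAt.eventually (LogSpace.Van.nhds _ e)
  refine ((he.and ke).and hv).mono ?_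
  rintro w' ⟨⟨h1, h2⟩, h3⟩
  obtain ⟨b1, f1⟩ := h1 (Set.mem_univ _)
  obtain ⟨b2, f2⟩ := h2 (Set.mem_univ _)
  rw [f1, f2, LogSpace.germ_eq_iff]
  exact h3

namespace LcAux

open Classical in
/-- the section given by one raw form, where this is defined -/
noncomputable def secOf (hι : IsRes y ι) (θ : Raw A[X] p 0) : SecT hι p := fun w =>
  if h : (berLS K A[X]).SFat (jj hι w) θ then (berLS K A[X]).germ θ h else 0

theorem secOf_eq (hι : IsRes y ι) {θ : Raw A[X] p 0} {w : Ber H H[X]}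
    (h : (berLS K A[X]).SFat (jj hι w) θ) : secOf hι θ w = (berLS K A[X]).germ θ h := by
  unfold secOf
  rw [dif_pos h]

theorem secOf_LC (hι : IsRes y ι) {θ : Raw A[X] p 0} (hc : IsCst θ) {w : Ber H H[X]}
    (h : (berLS K A[X]).SFat (jj hι w) θ) : LC hι (secOf hι θ) w := by
  refine ⟨θ, hc, h, ?_⟩
  have h1 : ∀ᶠ w' in 𝓝 w, (berLS K A[X]).SFat (jj hι w') θ :=
    (jj_continuous hι).continuousAt.eventually (LogSpace.SFat.nhds _ h)
  exact h1.mono fun w' hw' _ => ⟨hw', secOf_eq hι hw'⟩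

end LcAux

theorem exists_LC (hι : IsRes y ι) {w : Ber H H[X]} {x : (berLS K A[X]).Stalk p 0 (jj hι w)}
    (hx : x ∈ (berLS K A[X]).Lp p (jj hι w)) : ∃ s : SecT hι p, LC hι s w ∧ s w = x := by
  obtain ⟨θ, hc, h, rfl⟩ := (berLS K A[X]).exists_cst hx
  exact ⟨LcAux.secOf hι θ, LcAux.secOf_LC hι hc h, LcAux.secOf_eq hι h⟩

/-- `s` is regular at `w` iff it agrees outside `w` with a locally constant section -/
theorem reg_iff (hι : IsRes y ι) {s : SecT hι p} {w : Ber H H[X]} :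
    Reg hι s w ↔ ∃ u : SecT hι p, LC hι u w ∧ ∀ᶠ w' in 𝓝[≠] w, s w' = u w' := by
  constructor
  · rintro ⟨θ, hc, h, he⟩
    refine ⟨LcAux.secOf hι θ, LcAux.secOf_LC hι hc h, ?_⟩
    rw [eventually_nhdsWithin_iff]
    refine he.mono fun w' h1 hw' => ?_
    obtain ⟨k, hk⟩ := h1 hw'
    rw [hk, LcAux.secOf_eq hι k]
  · rintro ⟨u, hu, he⟩
    rw [eventually_nhdsWithin_iff] at he
    refine LCat.congr hι (LC.reg hι hu) ?_
    exact he.mono fun w' h1 hw' => (h1 hw').symm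

end Pool.Agent.TD
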