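import Pool.Agent.TD.E.Pol

/-! Block E: symbols with given polar parts (module TD_E_PP). -/

open scoped Topology
open Polynomial

namespace Pool.Agent.TD

variable {K A H : Type} [NormedField K] [CommRing A] [Algebra K A] [NormedField H]
  [IsUltrametricDist H] [CompleteSpace H] {y : Ber K A} {ι : A →+* H} {p : ℕ}

namespace EPP

/-- at the closed point of `Q` exactly the multiples of `Q` vanish -/
theorem vz (hClp : StmtClp) {Q : H[X]} (hQ : Irreducible Q) {w : Ber H H[X]} (hw : w.v Q = 0)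
    (f : H[X]) : w.v f = 0 ↔ Q ∣ f := by
  obtain ⟨c, -, hc2, -, hc4⟩ := hClp H Q hQ
  rw [hc2 w hw]
  exact hc4 f

theorem vne (hClp : StmtClp) {Q P : H[X]} (hQ : Irreducible Q) (hQm : Q.Monic)
    (hP : Irreducible P) (hPm : P.Monic) {w : Ber H H[X]} (hw : w.v Q = 0) (hne : P ≠ Q) :
    w.v P ≠ 0 := by
  intro h
  have h1 : Q ∣ P := (vz hClp hQ hw P).1 h
  have h2 : Associated Q P := (hQ.dvd_irreducible_iff_associated hP).1 h1
  exact hne (Polynomial.eq_of_monic_of_associated hPm hQm h2.symm)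

omit [IsUltrametricDist H] [CompleteSpace H] in
theorem lcat_sum (hι : IsRes y ι) {T : Type} [DecidableEq T] (S : Finset T) (f : T → SecT hι p)
    {D : Set (Ber H H[X])} {w : Ber H H[X]} (h : ∀ i ∈ S, LCat hι (f i) D w) :
    LCat hι (∑ i ∈ S, f i) D w := by
  induction S using Finset.induction_on with
  | empty =>
    rw [Finset.sum_empty]
    exact LCat.zero hι D w
  | insert i S hi ih =>
    rw [Finset.sum_insert hi]
    exact (h i (Finset.mem_insert_self i S)).add hι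
      (ih fun j hj => h j (Finset.mem_insert_of_mem hj))

omit [IsUltrametricDist H] [CompleteSpace H] in
/-- exterior product with a section which vanishes near `w` -/
theorem lcat_WH_sub (hι : IsRes y ι) (Q : H[X]) {s t : SecT hι p} {w : Ber H H[X]}
    (h : ∀ᶠ w' in 𝓝 w, s w' = t w') (D : Set (Ber H H[X])) : LCat hι (WH hι Q (s - t)) D w := by
  refine (LCat.zero hι D w).congr hι ?_
  filter_upwards [h] with w' hw' _
  rw [WH_apply, Pi.sub_apply, hw', sub_self, map_zero]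
  rfl

end EPP

open EPP in
/-- (PP) -/
theorem polar_parts (hClp : StmtClp) (hι : IsRes y ι) (d : ℕ) (F : Finset H[X])
    (hF : ∀ Q ∈ F, Q.Monic ∧ Irreducible Q ∧ Q.natDegree < d) (v : H[X] → SecT hι p)
    (hv : ∀ Q ∈ F, ∀ w : Ber H H[X], w.v Q = 0 → LC hι (v Q) w) :
    ∃ x ∈ Sy hι (p + 1) d,
      (∀ Q ∈ F, ∀ w : Ber H H[X], w.v Q = 0 → Reg hι (x - WH hι Q (v Q)) w) ∧
      ∀ Q : H[X], Q.Monic → Irreducible Q → Q ∉ F → ∀ w : Ber H H[X], w.v Q = 0 →
        Reg hι x w := by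
  classical
  induction d generalizing F v with
  | zero =>
    refine ⟨0, Submodule.zero_mem _, fun Q hQ => absurd (hF Q hQ).2.2 (Nat.not_lt_zero _), ?_⟩
    intro Q _ _ _ w _
    exact LCat.zero hι _ w
  | succ d ih =>
    -- the entries of degree `d`
    let Fd : Finset H[X] := F.filter fun Q => Q.natDegree = d
    have hFd : ∀ Q, Q ∈ Fd ↔ Q ∈ F ∧ Q.natDegree = d := fun Q => Finset.mem_filter
    have h1 : ∀ Q : H[X], ∃ s : SecT hι p, Q ∈ Fd → s ∈ Sy hι p d ∧
        ∀ w : Ber H H[X], w.v Q = 0 → LC hι s w ∧ ∀ᶠ w' in 𝓝 w, s w' = v Q w' := by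
      intro Q
      by_cases hQ : Q ∈ Fd
      · obtain ⟨hQF, hQd⟩ := (hFd Q).1 hQ
        obtain ⟨hQm, hQi, -⟩ := hF Q hQF
        obtain ⟨c, hc1, hc2, -, -⟩ := hClp H Q hQi
        have hLC := hv Q hQF c hc1
        obtain ⟨s, hs, hsLC, hsc⟩ := exists_Sy_closed hι hQm hQi hc1 (hLC.mem_Lp hι)
        rw [hQd] at hs
        refine ⟨s, fun _ => ⟨hs, fun w hw => ?_⟩⟩
        rw [hc2 w hw]
        exact ⟨hsLC, hsLC.eq_near hι hLC hsc⟩
      · exact ⟨0, fun h => absurd h hQ⟩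
    choose v' hv' using h1
    have h2 : ∀ Q : H[X], ∃ B : Finset H[X], Q ∈ Fd →
        (∀ P ∈ B, P.Monic ∧ Irreducible P ∧ P.natDegree < d) ∧
        ∀ w : Ber H H[X], (∀ P ∈ B, w.v P ≠ 0) → LC hι (v' Q) w := by
      intro Q
      by_cases hQ : Q ∈ Fd
      · obtain ⟨B, hB⟩ := Sy_bad hι (hv' Q hQ).1
        exact ⟨B, fun _ => hB⟩
      · exact ⟨∅, fun h => absurd h hQ⟩
    choose B hB using h2
    let F' : Finset H[X] := (F.filter fun Q => Q.natDegree < d) ∪ Fd.biUnion B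
    have hF'1 : ∀ Q ∈ F', Q.Monic ∧ Irreducible Q ∧ Q.natDegree < d := by
      intro Q hQ
      rcases Finset.mem_union.1 hQ with h | h
      · obtain ⟨h3, h4⟩ := Finset.mem_filter.1 h
        exact ⟨(hF Q h3).1, (hF Q h3).2.1, h4⟩
      · obtain ⟨P, hP, hQP⟩ := Finset.mem_biUnion.1 h
        exact (hB P hP).1 Q hQP
    have hyS : (∑ Q ∈ Fd, WH hι Q (v' Q)) ∈ Sy hι (p + 1) (d + 1) := by
      refine Submodule.sum_mem _ fun Q hQ => ?_
      obtain ⟨hQF, hQd⟩ := (hFd Q).1 hQ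
      refine WH_mem_Sy hι (hF Q hQF).1.ne_zero (by omega) ?_
      exact Sy_mono hι (Nat.le_succ d) (hv' Q hQ).1
    -- polar parts of the first summand
    have h3 : ∀ Q : H[X], ∃ s : SecT hι p, Q ∈ F' → ∀ w : Ber H H[X], w.v Q = 0 →
        LC hι s w ∧ Reg hι ((∑ Q ∈ Fd, WH hι Q (v' Q)) - WH hι Q s) w := by
      intro Q
      by_cases hQ : Q ∈ F'
      · obtain ⟨hQm, hQi, -⟩ := hF'1 Q hQ
        obtain ⟨c, hc1, hc2, -, -⟩ := hClp H Q hQi
        obtain ⟨u, s, hu, hs, he⟩ := polar hClp hι hyS hQi hc1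
        refine ⟨s, fun _ w hw => ?_⟩
        rw [hc2 w hw]
        refine ⟨hs, (reg_iff hι).2 ⟨u, hu, ?_⟩⟩
        filter_upwards [he] with w' hw'
        rw [Pi.sub_apply, hw', add_sub_cancel_right]
      · exact ⟨0, fun h => absurd h hQ⟩
    choose v'' hv'' using h3
    have hv1 : ∀ Q ∈ F', ∀ w : Ber H H[X], w.v Q = 0 →
        LC hι ((if Q ∈ F then v Q else 0) - v'' Q) w := by
      intro Q hQ w hw
      refine LCat.sub hι ?_ (hv'' Q hQ w hw).1
      by_cases hQF : Q ∈ F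
      · rw [if_pos hQF]
        exact hv Q hQF w hw
      · rw [if_neg hQF]
        exact LCat.zero hι _ w
    obtain ⟨x', hx'1, hx'2, hx'3⟩ := ih F' hF'1 (fun Q => (if Q ∈ F then v Q else 0) - v'' Q) hv1
    -- the summands of degree `d` are locally constant at the other closed points
    have h4 : ∀ Q : H[X], Q.Monic → Irreducible Q → Q ∉ F' → ∀ w : Ber H H[X], w.v Q = 0 →
        ∀ P ∈ Fd, P ≠ Q → LC hι (WH hι P (v' P)) w := by
      intro Q hQm hQi hQF' w hw P hP hne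
      obtain ⟨hPF, -⟩ := (hFd P).1 hP
      refine LCat.WH hι (dlH_LC hι ?_) ?_
      · exact vne hClp hQi hQm (hF P hPF).2.1 (hF P hPF).1 hw hne
      · refine (hB P hP).2 w fun R hR => ?_
        obtain ⟨hRm, hRi, -⟩ := (hB P hP).1 R hR
        refine vne hClp hQi hQm hRi hRm hw ?_
        rintro rfl
        exact hQF' (Finset.mem_union_right _ (Finset.mem_biUnion.2 ⟨P, hP, hR⟩))
    refine ⟨(∑ Q ∈ Fd, WH hι Q (v' Q)) + x', Submodule.add_mem _ hyS
      (Sy_mono hι (Nat.le_succ d) hx'1), ?_, ?_⟩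
    · intro Q hQ w hw
      obtain ⟨hQm, hQi, hQd⟩ := hF Q hQ
      rcases Nat.lt_succ_iff_lt_or_eq.1 hQd with hlt | heq
      · have hQF' : Q ∈ F' := Finset.mem_union_left _ (Finset.mem_filter.2 ⟨hQ, hlt⟩)
        have h5 := (hv'' Q hQF' w hw).2
        have h6 := hx'2 Q hQF' w hw
        rw [if_pos hQ] at h6
        have h7 := LCat.add hι h5 h6
        have h8 : (∑ Q ∈ Fd, WH hι Q (v' Q)) + x' - WH hι Q (v Q) =
            (∑ Q ∈ Fd, WH hι Q (v' Q)) - WH hι Q (v'' Q) +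
              (x' - WH hι Q (v Q - v'' Q)) := by
          rw [map_sub]
          abel
        rw [h8]
        exact h7
      · have hQFd : Q ∈ Fd := (hFd Q).2 ⟨hQ, heq⟩
        have hQF' : Q ∉ F' := fun h => by
          have := (hF'1 Q h).2.2
          omega
        have h5 := hx'3 Q hQm hQi hQF' w hw
        have h6 : LCat hι (∑ P ∈ Fd.erase Q, WH hι P (v' P)) {w}ᶜ w := by
          refine lcat_sum hι _ _ fun P hP => ?_
          obtain ⟨hne, hP'⟩ := Finset.mem_erase.1 hP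
          exact (h4 Q hQm hQi hQF' w hw P hP' hne).mono hι (Set.subset_univ _)
        have h7 : LCat hι (WH hι Q (v' Q - v Q)) {w}ᶜ w :=
          lcat_WH_sub hι Q ((hv' Q hQFd).2 w hw).2 _
        have h8 : (∑ Q ∈ Fd, WH hι Q (v' Q)) + x' - WH hι Q (v Q) =
            (∑ P ∈ Fd.erase Q, WH hι P (v' P)) + WH hι Q (v' Q - v Q) + x' := by
          rw [map_sub, ← Finset.add_sum_erase Fd (fun P => WH hι P (v' P)) hQFd]
          abel
        rw [h8]
        exact (h6.add hι h7).add hι h5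
    · intro Q hQm hQi hQF w hw
      by_cases hQF' : Q ∈ F'
      · have h5 := (hv'' Q hQF' w hw).2
        have h6 := hx'2 Q hQF' w hw
        rw [if_neg hQF] at h6
        have h7 := LCat.add hι h5 h6
        have h8 : (∑ Q ∈ Fd, WH hι Q (v' Q)) + x' =
            (∑ Q ∈ Fd, WH hι Q (v' Q)) - WH hι Q (v'' Q) +
              (x' - WH hι Q (0 - v'' Q)) := by
          rw [zero_sub, map_neg]
          abel
        rw [h8]
        exact h7
      · refine LCat.add hι ?_ (hx'3 Q hQm hQi hQF' w hw)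
        refine lcat_sum hι _ _ fun P hP => ?_
        have hne : P ≠ Q := by
          rintro rfl
          exact hQF ((hFd P).1 hP).1
        exact (h4 Q hQm hQi hQF' w hw P hP hne).mono hι (Set.subset_univ _)

end Pool.Agent.TD
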