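import Pool.Agent.TD.E.Sym

/-! Block E: polar parts of symbols (module TD_E_POL). -/

open scoped Topology
open Polynomial

namespace Pool.Agent.TD

variable {K A H : Type} [NormedField K] [CommRing A] [Algebra K A] [NormedField H]
  [IsUltrametricDist H] [CompleteSpace H] {y : Ber K A} {ι : A →+* H} {p d : ℕ}

namespace POL

/-- `s` has a polar part along `P` at `w`. -/
def Pol (hι : IsRes y ι) (P : H[X]) (w : Ber H H[X]) (s : SecT hι (p + 1)) : Prop :=
  ∃ (u : SecT hι (p + 1)) (v : SecT hι p), LC hι u w ∧ LC hι v w ∧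
      ∀ᶠ w' in 𝓝[≠] w, s w' = u w' + WH hι P v w'

omit [IsUltrametricDist H] [CompleteSpace H] in
theorem Pol.zero (hι : IsRes y ι) (P : H[X]) (w : Ber H H[X]) :
    Pol hι P w (0 : SecT hι (p + 1)) := by
  refine ⟨0, 0, LCat.zero hι _ _, LCat.zero hι _ _, Filter.Eventually.of_forall fun w' => ?_⟩
  rw [map_zero]
  simp

omit [IsUltrametricDist H] [CompleteSpace H] in
theorem Pol.add (hι : IsRes y ι) {P : H[X]} {w : Ber H H[X]} {s t : SecT hι (p + 1)}
    (hs : Pol hι P w s) (ht : Pol hι P w t) : Pol hι P w (s + t) := by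
  obtain ⟨u, v, hu, hv, h⟩ := hs
  obtain ⟨u', v', hu', hv', h'⟩ := ht
  refine ⟨u + u', v + v', LCat.add hι hu hu', LCat.add hι hv hv', ?_⟩
  filter_upwards [h, h'] with w' e e'
  rw [map_add, Pi.add_apply, Pi.add_apply, Pi.add_apply, e, e']
  abel

omit [IsUltrametricDist H] [CompleteSpace H] in
theorem Pol.smul (hι : IsRes y ι) {P : H[X]} {w : Ber H H[X]} {s : SecT hι (p + 1)} (c : ℝ)
    (hs : Pol hι P w s) : Pol hι P w (c • s) := by
  obtain ⟨u, v, hu, hv, h⟩ := hs
  refine ⟨c • u, c • v, LCat.smul hι c hu, LCat.smul hι c hv, ?_⟩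
  filter_upwards [h] with w' e
  rw [map_smul, Pi.smul_apply, Pi.smul_apply, Pi.smul_apply, e, smul_add]

/-- near a zero `w` of `P` the differential of `f` is that of `P^k g`, `g` being invertible at
`w`. -/
theorem dl_near (hClp : StmtClp) (hι : IsRes y ι) {P f : H[X]} (hP : Irreducible P)
    {w : Ber H H[X]} (hw : w.v P = 0) (hf : f ≠ 0) :
    ∃ (k : ℕ) (g : H[X]), LC hι (dlH hι g) w ∧
      ∀ᶠ w' in 𝓝[≠] w, dlH hι f w' = (k : ℝ) • dlH hι P w' + dlH hι g w' := by
  obtain ⟨k, g, hg, e⟩ := WfDvdMonoid.max_power_factor hf hP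
  obtain ⟨c, -, hc2, -, hc4⟩ := hClp H P hP
  have hwg : w.v g ≠ 0 := by
    intro h
    rw [hc2 w hw] at h
    exact hg ((hc4 g).1 h)
  refine ⟨k, g, dlH_LC hι hwg, ?_⟩
  have h1 : ∀ᶠ w' in 𝓝[≠] w, w'.v g ≠ 0 :=
    ((Ber.continuous_v g).continuousAt.eventually_ne hwg).filter_mono nhdsWithin_le_nhds
  have h2 : ∀ᶠ w' in 𝓝[≠] w, w'.v P ≠ 0 := by
    filter_upwards [self_mem_nhdsWithin] with w' hw' h
    exact hw' ((hc2 w' h).trans (hc2 w hw).symm)
  filter_upwards [h1, h2] with w' h1 h2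
  rw [e, dlH_pow_mul hι h2 h1]

theorem gen0 (hClp : StmtClp) (hι : IsRes y ι) {P f : H[X]} (hP : Irreducible P)
    {w : Ber H H[X]} (hw : w.v P = 0) (hf : f ≠ 0) {t : SecT hι p} (ht : LC hι t w) :
    Pol hι P w (WH hι f t) := by
  obtain ⟨k, g, hg, h⟩ := dl_near hClp hι hP hw hf
  refine ⟨WH hι g t, (k : ℝ) • t, LCat.WH hι hg ht, LCat.smul hι _ ht, ?_⟩
  filter_upwards [h] with w' e
  rw [map_smul, Pi.smul_apply, WH_apply, WH_apply, WH_apply, e, map_add, map_smul,
    LinearMap.add_apply, LinearMap.smul_apply]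
  exact add_comm _ _

theorem genS (hClp : StmtClp) (hι : IsRes y ι) {P f : H[X]} (hP : Irreducible P)
    {w : Ber H H[X]} (hw : w.v P = 0) (hf : f ≠ 0) {t : SecT hι (p + 1)} (ht : Pol hι P w t) :
    Pol hι P w (WH hι f t) := by
  obtain ⟨k, g, hg, h⟩ := dl_near hClp hι hP hw hf
  obtain ⟨u, v, hu, hv, h'⟩ := ht
  refine ⟨WH hι g u, (k : ℝ) • u - WH hι g v, LCat.WH hι hg hu,
    LCat.sub hι (LCat.smul hι _ hu) (LCat.WH hι hg hv), ?_⟩
  filter_upwards [h, h'] with w' e e'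
  rw [map_sub, map_smul, Pi.sub_apply, Pi.smul_apply, WH_apply, WH_apply, WH_apply, WH_apply,
    WH_apply, e, e', WH_apply]
  simp only [map_add, map_smul, LinearMap.add_apply, LinearMap.smul_apply]
  rw [LogSpace.wdS_self, smul_zero, zero_add,
    LogSpace.wdS_anti (berLS K A[X]) (dlH hι g w') (dlH hι P w') (v w')]
  abel

end POL

/-- (E3) -/
theorem polar (hClp : StmtClp) (hι : IsRes y ι) {s : SecT hι (p + 1)} (hs : s ∈ Sy hι (p + 1) d)
    {P : H[X]} (hP : Irreducible P) {w : Ber H H[X]} (hw : w.v P = 0) :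
    ∃ (u : SecT hι (p + 1)) (v : SecT hι p), LC hι u w ∧ LC hι v w ∧
      ∀ᶠ w' in 𝓝[≠] w, s w' = u w' + WH hι P v w' := by
  change POL.Pol hι P w s
  induction p with
  | zero =>
    unfold Sy at hs
    induction hs using Submodule.span_induction with
    | mem s hs =>
      obtain ⟨f, t, hf, -, ht, rfl⟩ := hs
      refine POL.gen0 hClp hι hP hw hf ?_
      unfold Sy at ht
      obtain ⟨c, rfl⟩ := Submodule.mem_span_singleton.1 ht
      exact LCat.smul hι c (LC.oneS hι w)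
    | zero => exact POL.Pol.zero hι P w
    | add s t _ _ hs ht => exact hs.add hι ht
    | smul c s _ hs => exact hs.smul hι c
  | succ p ih =>
    unfold Sy at hs
    induction hs using Submodule.span_induction with
    | mem s hs =>
      obtain ⟨f, t, hf, -, ht, rfl⟩ := hs
      exact POL.genS hClp hι hP hw hf (ih ht)
    | zero => exact POL.Pol.zero hι P w
    | add s t _ _ hs ht => exact hs.add hι ht
    | smul c s _ hs => exact hs.smul hι c

end Pool.Agent.TD
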