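import Pool.Agent.TD.E.PP
import Pool.Agent.TD.E.Exr

/-! Block E: splitting of a germ at `e` (module TD_E_SPLIT). -/

open scoped Topology
open Polynomial

namespace Pool.Agent.TD

variable {K A H : Type} [NormedField K] [CommRing A] [Algebra K A] [NormedField H]
  [IsUltrametricDist H] [CompleteSpace H] {y : Ber K A} {ι : A →+* H} {p : ℕ}

namespace ESplit

omit [IsUltrametricDist H] [CompleteSpace H] in
/-- a vanishing irreducible polynomial can be taken monic -/
theorem exists_monic {Q : H[X]} (hQ : Irreducible Q) {w : Ber H H[X]} (hw : w.v Q = 0) :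
    ∃ P : H[X], P.Monic ∧ Irreducible P ∧ w.v P = 0 := by
  have h0 : Q ≠ 0 := hQ.ne_zero
  refine ⟨Q * C Q.leadingCoeff⁻¹, monic_mul_leadingCoeff_inv h0,
    irreducible_mul_leadingCoeff_inv.2 hQ, ?_⟩
  rw [w.mul, hw, zero_mul]

/-- two monic irreducible polynomials which vanish at the same point are equal -/
theorem eq_of_vanish (hClp : StmtClp) {P Q : H[X]} (hP : P.Monic) (hP' : Irreducible P)
    (hQ : Q.Monic) (hQ' : Irreducible Q) {w : Ber H H[X]} (h1 : w.v P = 0) (h2 : w.v Q = 0) :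
    P = Q := by
  obtain ⟨c, -, huniq, -, hdvd⟩ := hClp H Q hQ'
  have hc : w = c := huniq w h2
  have h3 : Q ∣ P := (hdvd P).1 (hc ▸ h1)
  exact (eq_of_monic_of_associated hQ hP ((hQ'.dvd_irreducible_iff_associated hP').1 h3)).symm

end ESplit

open ESplit in
/-- (S) -/
theorem exists_split (hClp : StmtClp) (hι : IsRes y ι) (e : Ber H H[X])
    {l : (berLS K A[X]).Stalk p 0 (jj hι e)} (hl : l ∈ (berLS K A[X]).Lp p (jj hι e)) :
    ∃ s₁ s₂ : SecT hι p, (∀ w : Ber H H[X], ¬ w < e → LC hι s₁ w) ∧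
      (∀ w : Ber H H[X], w ≤ e → LC hι s₂ w) ∧ s₁ e + s₂ e = l := by
  classical
  cases p with
  | zero =>
    obtain ⟨d, s, hs, -, hsl⟩ := exists_Sy hι hl
    refine ⟨0, s, fun w _ => LCat.zero hι _ w, fun w _ => ?_, ?_⟩
    · obtain ⟨c, hc⟩ := Submodule.mem_span_singleton.1 hs
      rw [← hc]
      exact (LC.oneS hι w).smul hι c
    · rw [hsl]
      exact zero_add l
  | succ p =>
    by_cases hcl : ∃ Q : H[X], Irreducible Q ∧ e.v Q = 0
    · obtain ⟨Q, hQ, hQe⟩ := hcl
      obtain ⟨c, -, huniq, hmin, -⟩ := hClp H Q hQ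
      obtain ⟨d, s, -, hsLC, hsl⟩ := exists_Sy hι hl
      refine ⟨0, s, fun w _ => LCat.zero hι _ w, fun w hw => ?_, ?_⟩
      · have h1 : e = c := huniq e hQe
        have h2 : w = e := by
          rw [h1] at hw ⊢
          exact hmin w hw
        rw [h2]
        exact hsLC
      · rw [hsl]
        exact zero_add l
    · push Not at hcl
      obtain ⟨d, x, hx, -, hxl⟩ := exists_Sy hι hl
      obtain ⟨B, hB, hBx⟩ := Sy_bad hι hx
      -- polar parts
      have hpol : ∀ Q : H[X], ∃ v : SecT hι p, Irreducible Q → ∀ w : Ber H H[X], w.v Q = 0 →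
          LC hι v w ∧ Reg hι (x - WH hι Q v) w := by
        intro Q
        by_cases hQ : Irreducible Q
        · obtain ⟨c, hc, huniq, -, -⟩ := hClp H Q hQ
          obtain ⟨u, v, hu, hv, huv⟩ := polar hClp hι hx hQ hc
          refine ⟨v, fun _ w hw => ?_⟩
          rw [huniq w hw]
          refine ⟨hv, (reg_iff hι).2 ⟨u, hu, ?_⟩⟩
          filter_upwards [huv] with w' hw'
          show x w' - WH hι Q v w' = u w'
          rw [hw']
          exact add_sub_cancel_right _ _
        · exact ⟨0, fun h => absurd h hQ⟩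
      choose v hv using hpol
      let F : Finset H[X] := B.filter fun Q => ∀ w : Ber H H[X], w.v Q = 0 → ¬ w ≤ e
      have hFmem : ∀ Q, Q ∈ F ↔ Q ∈ B ∧ ∀ w : Ber H H[X], w.v Q = 0 → ¬ w ≤ e := fun Q =>
        Finset.mem_filter
      obtain ⟨z, hz, hzF, hzN⟩ := polar_parts hClp hι d F (fun Q hQ => hB Q ((hFmem Q).1 hQ).1) v
        (fun Q hQ w hw => (hv Q (hB Q ((hFmem Q).1 hQ).1).2.1 w hw).1)
      obtain ⟨Bz, hBz, hBzz⟩ := Sy_bad hι hz
      obtain ⟨s₂, hs₂, hs₂'⟩ := exists_regular hClp hι hz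
      obtain ⟨s₁, hs₁, hs₁'⟩ := exists_regular hClp hι (Submodule.sub_mem _ hx hz)
      refine ⟨s₁, s₂, fun w hw => hs₁' w ?_, fun w hw => hs₂' w ?_, ?_⟩
      · by_cases hwc : ∃ Q : H[X], Irreducible Q ∧ w.v Q = 0
        · obtain ⟨Q0, hQ0, hQ0w⟩ := hwc
          obtain ⟨Q, hQm, hQ, hQw⟩ := exists_monic hQ0 hQ0w
          have hne : w ≠ e := fun h => hcl Q hQ (h ▸ hQw)
          have hnle : ¬ w ≤ e := fun h => hw (lt_of_le_of_ne h hne)
          by_cases hQF : Q ∈ F
          · have h1 := LCat.sub hι (hv Q hQ w hQw).2 (hzF Q hQF w hQw)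
            have h2 : x - WH hι Q (v Q) - (z - WH hι Q (v Q)) = x - z := by abel
            rw [h2] at h1
            exact h1
          · obtain ⟨c, hc, huniq, -, -⟩ := hClp H Q hQ
            have hQB : Q ∉ B := by
              intro h
              apply hQF
              refine (hFmem Q).2 ⟨h, fun w' hw' => ?_⟩
              rw [huniq w' hw', ← huniq w hQw]
              exact hnle
            have hxw : LC hι x w := by
              refine hBx w fun P hP hPw => ?_
              have hPQ : P = Q := eq_of_vanish hClp (hB P hP).1 (hB P hP).2.1 hQm hQ hPw hQw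
              exact hQB (hPQ ▸ hP)
            exact LCat.sub hι (hxw.reg hι) (hzN Q hQm hQ hQF w hQw)
        · push Not at hwc
          have hxw : LC hι x w := hBx w fun P hP => hwc P (hB P hP).2.1
          have hzw : LC hι z w := hBzz w fun P hP => hwc P (hBz P hP).2.1
          exact LC.reg hι (LCat.sub hι hxw hzw)
      · by_cases hwc : ∃ Q : H[X], Irreducible Q ∧ w.v Q = 0
        · obtain ⟨Q0, hQ0, hQ0w⟩ := hwc
          obtain ⟨Q, hQm, hQ, hQw⟩ := exists_monic hQ0 hQ0w
          exact hzN Q hQm hQ (fun h => ((hFmem Q).1 h).2 w hQw hw) w hQw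
        · push Not at hwc
          exact LC.reg hι (hBzz w fun P hP => hwc P (hBz P hP).2.1)
      · rw [hs₁ e hcl, hs₂ e hcl, ← hxl]
        exact sub_add_cancel _ _

end Pool.Agent.TD
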