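import Pool.Agent.TD.E.Dl
import Pool.Agent.TD.E.Lc

/-! Block E: symbols (module TD_E_SYM). -/

open scoped Topology
open Polynomial

namespace Pool.Agent.TD

variable {K A H : Type} [NormedField K] [CommRing A] [Algebra K A] [NormedField H]
  {y : Ber K A} {ι : A →+* H} {p d : ℕ}

theorem Sy_mono (hι : IsRes y ι) {d' : ℕ} (h : d ≤ d') : Sy hι p d ≤ Sy hι p d' := by
  induction p with
  | zero => exact le_rfl
  | succ p ih =>
    refine Submodule.span_mono ?_
    rintro s ⟨f, t, h1, h2, h3, rfl⟩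
    exact ⟨f, t, h1, h2.trans_le h, ih h3, rfl⟩

theorem WH_mem_Sy (hι : IsRes y ι) {f : H[X]} {t : SecT hι p} (hf : f ≠ 0)
    (hd : f.natDegree < d) (ht : t ∈ Sy hι p d) : WH hι f t ∈ Sy hι (p + 1) d :=
  Submodule.subset_span ⟨f, t, hf, hd, ht, rfl⟩

namespace SymAux

theorem one_mem (hι : IsRes y ι) :
    (fun w => (berLS K A[X]).oneS (jj hι w) : SecT hι 0) ∈ Sy hι 0 d :=
  Submodule.subset_span rfl

/-- The monic irreducible factors of a polynomial. -/
theorem exists_factors {f : H[X]} (hf : f ≠ 0) (hd : f.natDegree < d) :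
    ∃ B : Finset H[X], (∀ P ∈ B, P.Monic ∧ Irreducible P ∧ P.natDegree < d) ∧
      ∀ w : Ber H H[X], (∀ P ∈ B, w.v P ≠ 0) → w.v f ≠ 0 := by
  classical
  refine ⟨(UniqueFactorizationMonoid.normalizedFactors f).toFinset, ?_, ?_⟩
  · intro P hP
    rw [Multiset.mem_toFinset] at hP
    have h1 := UniqueFactorizationMonoid.irreducible_of_normalized_factor P hP
    have h2 := UniqueFactorizationMonoid.normalize_normalized_factor P hP
    have h3 := UniqueFactorizationMonoid.dvd_of_mem_normalizedFactors hP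
    refine ⟨?_, h1, (Polynomial.natDegree_le_of_dvd h3 hf).trans_lt hd⟩
    rw [← h2]
    exact Polynomial.monic_normalize h1.ne_zero
  · intro w hw
    obtain ⟨c, hc⟩ := UniqueFactorizationMonoid.prod_normalizedFactors hf
    rw [← hc, w.mul, w.mprod]
    refine mul_ne_zero ?_ ?_
    · intro h0
      rw [Multiset.prod_eq_zero_iff, Multiset.mem_map] at h0
      obtain ⟨P, hP, hP0⟩ := h0
      exact hw P (Multiset.mem_toFinset.2 hP) hP0
    · intro h0
      have h1 : w.v (c : H[X]) * w.v ((c⁻¹ : H[X]ˣ) : H[X]) = 1 := by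
        rw [← w.mul, ← Units.val_mul, mul_inv_cancel, Units.val_one, w.one]
      rw [h0, zero_mul] at h1
      exact zero_ne_one h1

end SymAux

/-- Symbols are locally constant outside finitely many closed points. -/
theorem Sy_bad (hι : IsRes y ι) {s : SecT hι p} (hs : s ∈ Sy hι p d) :
    ∃ B : Finset H[X], (∀ P ∈ B, P.Monic ∧ Irreducible P ∧ P.natDegree < d) ∧
      ∀ w : Ber H H[X], (∀ P ∈ B, w.v P ≠ 0) → LC hι s w := by
  classical
  have hzero : ∀ q : ℕ, ∃ B : Finset H[X], (∀ P ∈ B, P.Monic ∧ Irreducible P ∧ P.natDegree < d) ∧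
      ∀ w : Ber H H[X], (∀ P ∈ B, w.v P ≠ 0) → LC hι (0 : SecT hι q) w :=
    fun q => ⟨∅, by simp, fun w _ => LCat.zero hι _ w⟩
  have hadd : ∀ (q : ℕ) (a b : SecT hι q),
      (∃ B : Finset H[X], (∀ P ∈ B, P.Monic ∧ Irreducible P ∧ P.natDegree < d) ∧
      ∀ w : Ber H H[X], (∀ P ∈ B, w.v P ≠ 0) → LC hι a w) →
      (∃ B : Finset H[X], (∀ P ∈ B, P.Monic ∧ Irreducible P ∧ P.natDegree < d) ∧
      ∀ w : Ber H H[X], (∀ P ∈ B, w.v P ≠ 0) → LC hι b w) →
      ∃ B : Finset H[X], (∀ P ∈ B, P.Monic ∧ Irreducible P ∧ P.natDegree < d) ∧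
      ∀ w : Ber H H[X], (∀ P ∈ B, w.v P ≠ 0) → LC hι (a + b) w := by
    rintro q a b ⟨B, hB, hB'⟩ ⟨C, hC, hC'⟩
    refine ⟨B ∪ C, ?_, ?_⟩
    · intro P hP
      rcases Finset.mem_union.1 hP with h | h
      exacts [hB P h, hC P h]
    · intro w hw
      exact LCat.add hι (hB' w fun P hP => hw P (Finset.mem_union_left _ hP))
        (hC' w fun P hP => hw P (Finset.mem_union_right _ hP))
  have hsmul : ∀ (q : ℕ) (c : ℝ) (a : SecT hι q),
      (∃ B : Finset H[X], (∀ P ∈ B, P.Monic ∧ Irreducible P ∧ P.natDegree < d) ∧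
      ∀ w : Ber H H[X], (∀ P ∈ B, w.v P ≠ 0) → LC hι a w) →
      ∃ B : Finset H[X], (∀ P ∈ B, P.Monic ∧ Irreducible P ∧ P.natDegree < d) ∧
      ∀ w : Ber H H[X], (∀ P ∈ B, w.v P ≠ 0) → LC hι (c • a) w := by
    rintro q c a ⟨B, hB, hB'⟩
    exact ⟨B, hB, fun w hw => LCat.smul hι c (hB' w hw)⟩
  induction p with
  | zero =>
    change s ∈ Submodule.span ℝ _ at hs
    induction hs using Submodule.span_induction with
    | mem s hs =>
      refine ⟨∅, by simp, fun w _ => ?_⟩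
      rw [Set.mem_singleton_iff.1 hs]
      exact LC.oneS hι w
    | zero => exact hzero _
    | add a b _ _ ha hb => exact hadd _ a b ha hb
    | smul c a _ ha => exact hsmul _ c a ha
  | succ p ih =>
    change s ∈ Submodule.span ℝ _ at hs
    induction hs using Submodule.span_induction with
    | mem s hs =>
      obtain ⟨f, t, hf, hd, ht, rfl⟩ := hs
      obtain ⟨B, hB, hB'⟩ := ih ht
      obtain ⟨C, hC, hC'⟩ := SymAux.exists_factors hf hd
      refine ⟨B ∪ C, ?_, ?_⟩
      · intro P hP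
        rcases Finset.mem_union.1 hP with h | h
        exacts [hB P h, hC P h]
      · intro w hw
        have h1 := hB' w fun P hP => hw P (Finset.mem_union_left _ hP)
        have h2 := hC' w fun P hP => hw P (Finset.mem_union_right _ hP)
        exact LCat.WH hι (dlH_LC hι h2) h1
    | zero => exact hzero _
    | add a b _ _ ha hb => exact hadd _ a b ha hb
    | smul c a _ ha => exact hsmul _ c a ha

namespace SymAux

/-- symbols of functions -/
theorem exists_sym (hι : IsRes y ι) {w : Ber H H[X]} : ∀ (p : ℕ) (f : Fin p → A[X])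
    (h : ∀ i, jj hι w ∈ (berLS K A[X]).dom (f i)), ∃ d, ∃ s ∈ Sy hι p d, LC hι s w ∧
      s w = (berLS K A[X]).symS p (fun i => (berLS K A[X]).dlS (f i) (h i)) := by
  intro p
  induction p with
  | zero =>
    intro f h
    exact ⟨0, _, one_mem hι, LC.oneS hι w, rfl⟩
  | succ p ih =>
    intro f h
    obtain ⟨d, t, ht, ht', ht''⟩ := ih (fun i => f i.succ) (fun i => h i.succ)
    have hv : w.v ((f 0).map ι) ≠ 0 := h 0
    have hne : (f 0).map ι ≠ 0 := by
      intro h0
      rw [h0, w.zero] at hv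
      exact hv rfl
    refine ⟨max d (((f 0).map ι).natDegree + 1), WH hι ((f 0).map ι) t,
      WH_mem_Sy hι hne ?_ (Sy_mono hι (le_max_left _ _) ht), LCat.WH hι (dlH_LC hι hv) ht', ?_⟩
    · exact (Nat.lt_succ_self _).trans_le (le_max_right _ _)
    · rw [WH_apply, dlH_map hι (h 0), ht'']
      rfl

theorem exists_sym_closed (hι : IsRes y ι) {Q : H[X]} (hQ : Q.Monic) (hQ' : Irreducible Q)
    {w : Ber H H[X]} (hw : w.v Q = 0) : ∀ (p : ℕ) (f : Fin p → A[X])
    (h : ∀ i, jj hι w ∈ (berLS K A[X]).dom (f i)), ∃ s ∈ Sy hι p Q.natDegree, LC hι s w ∧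
      s w = (berLS K A[X]).symS p (fun i => (berLS K A[X]).dlS (f i) (h i)) := by
  intro p
  induction p with
  | zero =>
    intro f h
    exact ⟨_, one_mem hι, LC.oneS hι w, rfl⟩
  | succ p ih =>
    intro f h
    obtain ⟨t, ht, ht', ht''⟩ := ih (fun i => f i.succ) (fun i => h i.succ)
    have hv : w.v ((f 0).map ι) ≠ 0 := h 0
    have hlt : w.v ((f 0).map ι - (f 0).map ι %ₘ Q) < w.v ((f 0).map ι) := by
      have e : (f 0).map ι - (f 0).map ι %ₘ Q = Q * ((f 0).map ι /ₘ Q) := by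
        have := Polynomial.modByMonic_add_div ((f 0).map ι) Q
        rw [sub_eq_iff_eq_add']
        exact this.symm
      rw [e, w.mul, hw, zero_mul]
      exact lt_of_le_of_ne (w.nonneg _) hv.symm
    have hv' : w.v ((f 0).map ι %ₘ Q) ≠ 0 := by
      rw [w.sub_eq hlt]
      exact hv
    have hne : (f 0).map ι %ₘ Q ≠ 0 := by
      intro h0
      rw [h0, w.zero] at hv'
      exact hv' rfl
    have hQ1 : Q ≠ 1 := by
      rintro rfl
      exact hQ'.not_isUnit isUnit_one
    refine ⟨WH hι ((f 0).map ι %ₘ Q) t,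
      WH_mem_Sy hι hne (Polynomial.natDegree_modByMonic_lt _ hQ hQ1) ht,
      LCat.WH hι (dlH_LC hι hv') ht', ?_⟩
    rw [WH_apply, ← dlH_congr hι hlt, dlH_map hι (h 0), ht'']
    rfl

end SymAux

/-- (E2) -/
theorem exists_Sy (hι : IsRes y ι) {w : Ber H H[X]} {x : (berLS K A[X]).Stalk p 0 (jj hι w)}
    (hx : x ∈ (berLS K A[X]).Lp p (jj hι w)) :
    ∃ d, ∃ s ∈ Sy hι p d, LC hι s w ∧ s w = x := by
  unfold LogSpace.Lp at hx
  induction hx using Submodule.span_induction with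
  | mem x hx =>
    obtain ⟨f, h, rfl⟩ := hx
    exact SymAux.exists_sym hι p f h
  | zero => exact ⟨0, 0, Submodule.zero_mem _, LCat.zero hι _ w, rfl⟩
  | add a b _ _ ha hb =>
    obtain ⟨d1, s1, h1, h1', rfl⟩ := ha
    obtain ⟨d2, s2, h2, h2', rfl⟩ := hb
    exact ⟨max d1 d2, s1 + s2, Submodule.add_mem _ (Sy_mono hι (le_max_left _ _) h1)
      (Sy_mono hι (le_max_right _ _) h2), LCat.add hι h1' h2', rfl⟩
  | smul c a _ ha =>
    obtain ⟨d1, s1, h1, h1', rfl⟩ := ha
    exact ⟨d1, c • s1, Submodule.smul_mem _ c h1, LCat.smul hι c h1', rfl⟩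

/-- (E2) at a closed point: representatives of degree smaller than the degree of the point. -/
theorem exists_Sy_closed (hι : IsRes y ι) {Q : H[X]} (hQ : Q.Monic) (hQ' : Irreducible Q)
    {w : Ber H H[X]} (hw : w.v Q = 0) {x : (berLS K A[X]).Stalk p 0 (jj hι w)}
    (hx : x ∈ (berLS K A[X]).Lp p (jj hι w)) :
    ∃ s ∈ Sy hι p Q.natDegree, LC hι s w ∧ s w = x := by
  unfold LogSpace.Lp at hx
  induction hx using Submodule.span_induction with
  | mem x hx =>
    obtain ⟨f, h, rfl⟩ := hx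
    exact SymAux.exists_sym_closed hι hQ hQ' hw p f h
  | zero => exact ⟨0, Submodule.zero_mem _, LCat.zero hι _ w, rfl⟩
  | add a b _ _ ha hb =>
    obtain ⟨s1, h1, h1', rfl⟩ := ha
    obtain ⟨s2, h2, h2', rfl⟩ := hb
    exact ⟨s1 + s2, Submodule.add_mem _ h1 h2, LCat.add hι h1' h2', rfl⟩
  | smul c a _ ha =>
    obtain ⟨s1, h1, h1', rfl⟩ := ha
    exact ⟨c • s1, Submodule.smul_mem _ c h1, LCat.smul hι c h1', rfl⟩

end Pool.Agent.TD
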